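import Pool.Agent.Work.MP_8c9686_lc.Defs

/-!
# Annotated terms and plans

Labels are terms (of type `Term F ar`, the variables being read as constants). An annotated term
is a term whose non-variable nodes may carry a plan `(m, L, N)`: size `m`, source label `L`,
target label `N`.
-/

namespace Pool.Agent.Work.MP_8c9686_lc_T

open Pool.Agent.Work.MP_8c9686_lc Pool.Agent.Work.MP_8c9686_lc.Term

variable {F : Type*} {ar : F → ℕ}

/-- Annotated terms. -/
inductive ATm (F : Type*) (ar : F → ℕ) : Type _
  | var (x : ℕ) : ATm F ar
  | node (f : F) (a : Fin (ar f) → ATm F ar) (o : Option (ℕ × Term F ar × Term F ar)) : ATm F ar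

namespace ATm

/-- The underlying term. -/
def erase : ATm F ar → Term F ar
  | var x => Term.var x
  | node f a _ => Term.app f fun i => (a i).erase

/-- The value of an annotated term under `g : ℕ → Term F ar`. -/
def val (g : ℕ → Term F ar) : ATm F ar → Term F ar
  | var x => g x
  | node f a none => Term.app f fun i => (a i).val g
  | node _ _ (some (_, _, N)) => N

/-- The annotation `(m, L, N)` sits at some node of the annotated term. -/
inductive HasAnn : ATm F ar → ℕ → Term F ar → Term F ar → Prop
  | root (f : F) (a : Fin (ar f) → ATm F ar) (m : ℕ) (L N : Term F ar) :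
      HasAnn (node f a (some (m, L, N))) m L N
  | arg (f : F) (a : Fin (ar f) → ATm F ar) (o : Option (ℕ × Term F ar × Term F ar))
      (i : Fin (ar f)) (m : ℕ) (L N : Term F ar) (h : HasAnn (a i) m L N) :
      HasAnn (node f a o) m L N

/-- Coherence: the source label of an annotated node is determined by the values of its
arguments. -/
def Coh (g : ℕ → Term F ar) : ATm F ar → Prop
  | var _ => True
  | node _ a none => ∀ i, (a i).Coh g
  | node f a (some (_, L, _)) => (∀ i, (a i).Coh g) ∧ L = Term.app f fun i => (a i).val g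

end ATm

open ATm

/-- `Plan E m L N`: there is a plan of size `m` which transforms the label `L` into the label `N`
by one step at the root with an equation of `E ∪ E⁻¹`, all evaluations needed for that step having
smaller plans. -/
inductive Plan (E : Set (Term F ar × Term F ar)) : ℕ → Term F ar → Term F ar → Prop
  | dec (m : ℕ) (f : F) (L' : Fin (ar f) → Term F ar) (N : Term F ar)
      (l : Fin (ar f) → Term F ar) (r : Term F ar)
      (hlr : (app f l, r) ∈ E ∨ (r, app f l) ∈ E) (τ : ℕ → Term F ar)
      (la : Fin (ar f) → ATm F ar) (ra : ATm F ar)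
      (hla : ∀ i, (la i).erase = l i) (hra : ra.erase = r)
      (hlc : ∀ i, (la i).Coh τ) (hrc : ra.Coh τ)
      (hlv : ∀ i, (la i).val τ = L' i) (hrv : ra.val τ = N)
      (hlm : ∀ i m' K K', (la i).HasAnn m' K K' → m' < m) (hrm : ∀ m' K K', ra.HasAnn m' K K' → m' < m)
      (hlp : ∀ i m' K K', (la i).HasAnn m' K K' → Plan E m' K K')
      (hrp : ∀ m' K K', ra.HasAnn m' K K' → Plan E m' K K') :
      Plan E m (app f L') N
  | var (m : ℕ) (L N : Term F ar) (hL : L.NonVar) (x : ℕ) (r : Term F ar)
      (hlr : (Term.var x, r) ∈ E ∨ (r, Term.var x) ∈ E) (τ : ℕ → Term F ar)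
      (hx : τ x = L) (ra : ATm F ar) (hra : ra.erase = r) (hrc : ra.Coh τ) (hrv : ra.val τ = N)
      (hrm : ∀ m' K K', ra.HasAnn m' K K' → m' < m)
      (hrp : ∀ m' K K', ra.HasAnn m' K K' → Plan E m' K K') :
      Plan E m L N

/-- Coherent annotated terms all of whose annotations are plans. -/
def Good (E : Set (Term F ar × Term F ar)) (g : ℕ → Term F ar) (a : ATm F ar) : Prop :=
  a.Coh g ∧ ∀ m L N, a.HasAnn m L N → Plan E m L N

end Pool.Agent.Work.MP_8c9686_lc_T
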