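import Pool.Agent.Work.MP_8c9686_lc_T.Ann
import Pool.Agent.Work.MP_8c9686_lc.Main

/-!
# Annotated states

A state consists of the set `V` of all variables used so far, the current values `g` of the
variables, the list `Ls` of the solved equations and the unsolved annotated equations `U`.
-/

namespace Pool.Agent.Work.MP_8c9686_lc_T

open Pool.Agent.Work.MP_8c9686_lc Pool.Agent.Work.MP_8c9686_lc.Term Relation

variable {F : Type*} {ar : F → ℕ}

/-- annotated systems -/
abbrev ASys (F : Type*) (ar : F → ℕ) := Multiset (Sym2 (ATm F ar))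

/-- the underlying system of an annotated system -/
def esys (U : ASys F ar) : Sys F ar := U.map (Sym2.map ATm.erase)

/-- the invariant of a state -/
structure Inv (E : Set (Term F ar × Term F ar)) (V : Finset ℕ) (g : ℕ → Term F ar)
    (Ls : List (ℕ × Term F ar)) (U : ASys F ar) : Prop where
  varsL : sysVars (bsys Ls) ⊆ V
  varsU : sysVars (esys U) ⊆ V
  once : ∀ p ∈ Ls, sysOcc p.1 (bsys Ls) = 1
  free : ∀ p ∈ Ls, p.1 ∉ sysVars (esys U)
  bind : ∀ p ∈ Ls, EqE E (g p.1) (p.2.subst g)
  valid : ∀ a b, s(a, b) ∈ U → Good E g a ∧ Good E g b ∧ a.val g = b.val g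

/-- the state can be solved by an eager derivation -/
def Done (E : Set (Term F ar × Term F ar)) (V : Finset ℕ) (g : ℕ → Term F ar)
    (Ls : List (ℕ × Term F ar)) (U : ASys F ar) : Prop :=
  ∃ V' g' Ls', ReflTransGen (StepT E) (V, bsys Ls + esys U) (V', bsys Ls') ∧
    Inv E V' g' Ls' 0 ∧ V ⊆ V' ∧ ∀ x ∈ V, g' x = g x

/-- `Done` follows from `Done` of a later state -/
theorem Done.of_step {E : Set (Term F ar × Term F ar)} {V V1 : Finset ℕ} {g g1 : ℕ → Term F ar}
    {Ls Ls1 : List (ℕ × Term F ar)} {U U1 : ASys F ar}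
    (h : ReflTransGen (StepT E) (V, bsys Ls + esys U) (V1, bsys Ls1 + esys U1)) (hV : V ⊆ V1)
    (hg : ∀ x ∈ V, g1 x = g x) (hd : Done E V1 g1 Ls1 U1) : Done E V g Ls U := by
  obtain ⟨V', g', Ls', h1, h2, h3, h4⟩ := hd
  exact ⟨V', g', Ls', h.trans h1, h2, hV.trans h3, fun x hx => (h4 x (hV hx)).trans (hg x hx)⟩

/-- no annotations are left -/
def NoAnn (U : ASys F ar) : Prop := ∀ a b, s(a, b) ∈ U → ∀ m L N, ¬ a.HasAnn m L N

/-- all annotations have level less than `m`, or level `m` and a source label in `D` -/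
def Bdd (m : ℕ) (D : Finset (Term F ar)) (U : ASys F ar) : Prop :=
  ∀ a b, s(a, b) ∈ U → ∀ m' L' N', a.HasAnn m' L' N' → m' < m ∨ (m' = m ∧ L' ∈ D)

namespace ATm

/-- substitution of annotated terms for the variables of an annotated term -/
def asub (σ : ℕ → ATm F ar) : ATm F ar → ATm F ar
  | var x => σ x
  | node f a o => node f (fun i => asub σ (a i)) o

/-- the substitution `[b/y]` -/
def asingle (y : ℕ) (b : ATm F ar) : ℕ → ATm F ar := fun z => if z = y then b else var z

end ATm

end Pool.Agent.Work.MP_8c9686_lc_T
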