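import Pool.Agent.Work.MP_8c9686_lc_T.Plans
import Pool.Agent.Work.MP_8c9686_lc_T.State

/-! Lemmas on annotated terms: substitution, replacement, counting of the nodes of a key. -/

namespace Pool.Agent.Work.MP_8c9686_lc_T

open Pool.Agent.Work.MP_8c9686_lc Pool.Agent.Work.MP_8c9686_lc.Term ATm

variable {F : Type*} {ar : F → ℕ} {E : Set (Term F ar × Term F ar)}

namespace ATm

theorem erase_asub (σ : ℕ → ATm F ar) (a : ATm F ar) :
    (a.asub σ).erase = a.erase.subst fun x => (σ x).erase := by
  induction a with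
  | var x => rfl
  | node f a o ih => simp only [asub, erase, Term.subst_app]; congr 1; funext i; exact ih i

theorem val_asub (g : ℕ → Term F ar) (σ : ℕ → ATm F ar) (a : ATm F ar) :
    (a.asub σ).val g = a.val fun x => (σ x).val g := by
  induction a with
  | var x => rfl
  | node f a o ih =>
    rcases o with _ | ⟨m, L, N⟩
    · simp only [asub, val]; congr 1; funext i; exact ih i
    · rfl

theorem val_congr {g g' : ℕ → Term F ar} {a : ATm F ar} (h : ∀ x ∈ a.erase.vars, g x = g' x) :
    a.val g = a.val g' := by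
  induction a with
  | var x => exact h x (by simp [erase])
  | node f a o ih =>
    rcases o with _ | ⟨m, L, N⟩
    · simp only [val]; congr 1; funext i
      exact ih i fun x hx => h x (by simp only [erase, mem_vars_app]; exact ⟨i, hx⟩)
    · rfl

theorem coh_congr {g g' : ℕ → Term F ar} {a : ATm F ar} (h : ∀ x ∈ a.erase.vars, g x = g' x)
    (ha : a.Coh g) : a.Coh g' := by
  induction a with
  | var x => trivial
  | node f a o ih =>
    have h' : ∀ i, ∀ x ∈ (a i).erase.vars, g x = g' x := fun i x hx =>
      h x (by simp only [erase, mem_vars_app]; exact ⟨i, hx⟩)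
    rcases o with _ | ⟨m, L, N⟩
    · exact fun i => ih i (h' i) (ha i)
    · refine ⟨fun i => ih i (h' i) (ha.1 i), ?_⟩
      rw [ha.2]; congr 1; funext i; exact val_congr (h' i)

theorem coh_asub {g : ℕ → Term F ar} {σ : ℕ → ATm F ar} {a : ATm F ar}
    (ha : a.Coh fun x => (σ x).val g) (hσ : ∀ x, (σ x).Coh g) : (a.asub σ).Coh g := by
  induction a with
  | var x => exact hσ x
  | node f a o ih =>
    rcases o with _ | ⟨m, L, N⟩
    · exact fun i => ih i (ha i)
    · refine ⟨fun i => ih i (ha.1 i), ?_⟩
      rw [ha.2]; congr 1; funext i; exact (val_asub g σ (a i)).symm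

theorem hasAnn_asub {σ : ℕ → ATm F ar} {a : ATm F ar} {m : ℕ} {K N : Term F ar}
    (h : (a.asub σ).HasAnn m K N) :
    a.HasAnn m K N ∨ ∃ x ∈ a.erase.vars, (σ x).HasAnn m K N := by
  induction a with
  | var x => exact Or.inr ⟨x, by simp [erase], h⟩
  | node f a o ih =>
    simp only [asub] at h
    cases h with
    | root => exact Or.inl (HasAnn.root _ _ _ _ _)
    | arg _ _ _ i _ _ _ h =>
      rcases ih i h with h | ⟨x, hx, h⟩
      · exact Or.inl (HasAnn.arg _ _ _ i _ _ _ h)
      · exact Or.inr ⟨x, by simp only [erase, mem_vars_app]; exact ⟨i, hx⟩, h⟩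

/-- Renaming of the variables. -/
def ren (π : ℕ → ℕ) (a : ATm F ar) : ATm F ar := a.asub fun x => var (π x)

theorem erase_ren (π : ℕ → ℕ) (a : ATm F ar) :
    (a.ren π).erase = a.erase.subst fun x => Term.var (π x) := erase_asub _ a

theorem val_ren (g : ℕ → Term F ar) (π : ℕ → ℕ) (a : ATm F ar) :
    (a.ren π).val g = a.val fun x => g (π x) := val_asub g _ a

theorem coh_ren {g : ℕ → Term F ar} {π : ℕ → ℕ} {a : ATm F ar} (ha : a.Coh fun x => g (π x)) :
    (a.ren π).Coh g := coh_asub ha fun _ => trivial

theorem hasAnn_ren {π : ℕ → ℕ} {a : ATm F ar} {m : ℕ} {K N : Term F ar}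
    (h : (a.ren π).HasAnn m K N) : a.HasAnn m K N := by
  rcases hasAnn_asub h with h | ⟨x, _, h⟩
  · exact h
  · cases h

open Classical in
/-- The number of nodes with the key `(M, K)`. -/
noncomputable def cnt (M : ℕ) (K : Term F ar) : ATm F ar → ℕ
  | var _ => 0
  | node _ a o => (∑ i, cnt M K (a i)) + (if ∃ N, o = some (M, K, N) then 1 else 0)

theorem cnt_eq_zero {M : ℕ} {K : Term F ar} {a : ATm F ar} :
    a.cnt M K = 0 ↔ ∀ N, ¬ a.HasAnn M K N := by
  induction a with
  | var x => simp only [cnt, true_iff]; intro N h; cases h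
  | node f a o ih =>
    simp only [cnt, Nat.add_eq_zero_iff, Finset.sum_eq_zero_iff, Finset.mem_univ, true_implies]
    constructor
    · rintro ⟨h1, h2⟩ N h
      split_ifs at h2 with h3
      cases h with
      | root => exact h3 ⟨N, rfl⟩
      | arg _ _ _ i _ _ _ h => exact (ih i).1 (h1 i) N h
    · intro h
      refine ⟨fun i => (ih i).2 fun N hN => h N (HasAnn.arg _ _ _ i _ _ _ hN), ?_⟩
      rw [if_neg]
      rintro ⟨N, rfl⟩
      exact h N (HasAnn.root _ _ _ _ _)

theorem cnt_node_le (M : ℕ) (K : Term F ar) (f : F) (a : Fin (ar f) → ATm F ar)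
    (o : Option (ℕ × Term F ar × Term F ar)) (i : Fin (ar f)) :
    (a i).cnt M K ≤ (node f a o).cnt M K := by
  simp only [cnt]
  exact (Finset.single_le_sum (f := fun i => (a i).cnt M K) (fun _ _ => Nat.zero_le _)
    (Finset.mem_univ i)).trans (Nat.le_add_right _ _)

theorem cnt_asub {M : ℕ} {K : Term F ar} {σ : ℕ → ATm F ar} (hσ : ∀ x, (σ x).cnt M K = 0)
    (a : ATm F ar) : (a.asub σ).cnt M K = a.cnt M K := by
  induction a with
  | var x => simpa [asub, cnt] using hσ x
  | node f a o ih => simp only [asub, cnt]; congr 1; exact Finset.sum_congr rfl fun i _ => ih i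

/-- The variable `y` occurs at a position that is not below a node of key `(M, K)`. -/
def Exp (M : ℕ) (K : Term F ar) (y : ℕ) : ATm F ar → Prop
  | var x => x = y
  | node _ a o => (¬ ∃ N, o = some (M, K, N)) ∧ ∃ i, (a i).Exp M K y

theorem Exp.mem_vars {M : ℕ} {K : Term F ar} {y : ℕ} {a : ATm F ar} (h : a.Exp M K y) :
    y ∈ a.erase.vars := by
  induction a with
  | var x => simp only [Exp] at h; simp [erase, h]
  | node f a o ih =>
    obtain ⟨_, i, hi⟩ := h
    simp only [erase, mem_vars_app]
    exact ⟨i, ih i hi⟩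

theorem exp_of_cnt {M : ℕ} {K : Term F ar} {y : ℕ} {a : ATm F ar} (h : y ∈ a.erase.vars)
    (h0 : a.cnt M K = 0) : a.Exp M K y := by
  induction a with
  | var x => simp only [erase, mem_vars_var] at h; exact h.symm
  | node f a o ih =>
    simp only [erase, mem_vars_app] at h
    obtain ⟨i, hi⟩ := h
    refine ⟨?_, i, ih i hi ?_⟩
    · rintro ⟨N, rfl⟩
      exact cnt_eq_zero.1 h0 N (HasAnn.root _ _ _ _ _)
    · have := cnt_node_le M K f a o i
      omega

theorem Exp.asub {M : ℕ} {K : Term F ar} {y z : ℕ} {a : ATm F ar} {σ : ℕ → ATm F ar}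
    (h : a.Exp M K y) (hσ : σ y = var z) : (a.asub σ).Exp M K z := by
  induction a with
  | var x =>
    simp only [Exp] at h
    subst h
    simp only [ATm.asub, hσ, Exp]
  | node f a o ih =>
    obtain ⟨h1, i, hi⟩ := h
    exact ⟨h1, i, ih i hi⟩

/-- `AR w w' a a'`: `a'` results from `a` by replacing the subterm `w` at some position
by `w'`. -/
inductive AR (w w' : ATm F ar) : ATm F ar → ATm F ar → Prop
  | here : AR w w' w w'
  | arg (f : F) (a : Fin (ar f) → ATm F ar) (o : Option (ℕ × Term F ar × Term F ar))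
      (i : Fin (ar f)) (t' : ATm F ar) (h : AR w w' (a i) t') :
      AR w w' (node f a o) (node f (Function.update a i t') o)

variable {w w' a a' : ATm F ar}

theorem AR.erase (h : AR w w' a a') : ReplAt w.erase w'.erase a.erase a'.erase := by
  induction h with
  | here => exact ReplAt.here
  | arg f a o i t' h ih =>
    have h1 : (fun j => (Function.update a i t' j).erase) =
        Function.update (fun j => (a j).erase) i t'.erase := by
      funext j
      by_cases hj : j = i
      · subst hj; simp
      · simp [Function.update_of_ne hj]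
    simp only [ATm.erase]
    rw [h1]
    exact ReplAt.arg f _ i _ ih

theorem AR.val {g : ℕ → Term F ar} (h : AR w w' a a') (hw : w'.val g = w.val g) :
    a'.val g = a.val g := by
  induction h with
  | here => exact hw
  | arg f a o i t' h ih =>
    rcases o with _ | ⟨m, L, N⟩
    · simp only [ATm.val]
      congr 1
      funext j
      by_cases hj : j = i
      · subst hj; simpa using ih
      · simp [Function.update_of_ne hj]
    · rfl

theorem AR.coh {g : ℕ → Term F ar} (h : AR w w' a a') (hw : w'.val g = w.val g)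
    (hc : w'.Coh g) (ha : a.Coh g) : a'.Coh g := by
  induction h with
  | here => exact hc
  | arg f a o i t' h ih =>
    rcases o with _ | ⟨m, L, N⟩
    · intro j
      by_cases hj : j = i
      · subst hj; simpa using ih (ha _)
      · rw [Function.update_of_ne hj]; exact ha j
    · refine ⟨fun j => ?_, ?_⟩
      · by_cases hj : j = i
        · subst hj; simpa using ih (ha.1 _)
        · rw [Function.update_of_ne hj]; exact ha.1 j
      · rw [ha.2]
        congr 1
        funext j
        by_cases hj : j = i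
        · subst hj; simpa using (h.val hw).symm
        · simp [Function.update_of_ne hj]

theorem AR.coh_sub {g : ℕ → Term F ar} (h : AR w w' a a') (ha : a.Coh g) : w.Coh g := by
  induction h with
  | here => exact ha
  | arg f a o i t' h ih =>
    rcases o with _ | ⟨m, L, N⟩
    · exact ih (ha i)
    · exact ih (ha.1 i)

theorem AR.ann {m : ℕ} {K N : Term F ar} (h : AR w w' a a') (ha : a'.HasAnn m K N) :
    a.HasAnn m K N ∨ w'.HasAnn m K N := by
  induction h with
  | here => exact Or.inr ha
  | arg f a o i t' h ih =>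
    cases ha with
    | root => exact Or.inl (HasAnn.root _ _ _ _ _)
    | arg _ _ _ j _ _ _ ha =>
      by_cases hj : j = i
      · subst hj
        rw [Function.update_self] at ha
        rcases ih ha with h' | h'
        · exact Or.inl (HasAnn.arg _ _ _ _ _ _ _ h')
        · exact Or.inr h'
      · rw [Function.update_of_ne hj] at ha
        exact Or.inl (HasAnn.arg _ _ _ _ _ _ _ ha)

theorem AR.ann_sub {m : ℕ} {K N : Term F ar} (h : AR w w' a a') (hw : w.HasAnn m K N) :
    a.HasAnn m K N := by
  induction h with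
  | here => exact hw
  | arg f a o i t' h ih => exact HasAnn.arg _ _ _ _ _ _ _ ih

theorem AR.vars (h : AR w w' a a') : ∀ x ∈ a'.erase.vars, x ∈ a.erase.vars ∨ x ∈ w'.erase.vars := by
  induction h with
  | here => exact fun x hx => Or.inr hx
  | arg f a o i t' h ih =>
    intro x hx
    simp only [ATm.erase, mem_vars_app] at hx ⊢
    obtain ⟨j, hj⟩ := hx
    by_cases hji : j = i
    · subst hji
      rw [Function.update_self] at hj
      rcases ih x hj with h' | h'
      · exact Or.inl ⟨_, h'⟩
      · exact Or.inr h'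
    · rw [Function.update_of_ne hji] at hj
      exact Or.inl ⟨j, hj⟩

theorem AR.vars_sub (h : AR w w' a a') : ∀ x ∈ w.erase.vars, x ∈ a.erase.vars := by
  induction h with
  | here => exact fun x hx => hx
  | arg f a o i t' h ih =>
    intro x hx
    simp only [ATm.erase, mem_vars_app]
    exact ⟨i, ih x hx⟩

theorem AR.cnt {M : ℕ} {K : Term F ar} (h : AR w w' a a') :
    a'.cnt M K + w.cnt M K = a.cnt M K + w'.cnt M K := by
  induction h with
  | here => exact Nat.add_comm _ _
  | arg f a o i t' h ih =>
    simp only [ATm.cnt]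
    have h1 : (∑ j, (Function.update a i t' j).cnt M K) + (a i).cnt M K =
        (∑ j, (a j).cnt M K) + t'.cnt M K := by
      rw [← Finset.add_sum_erase _ _ (Finset.mem_univ i),
        ← Finset.add_sum_erase Finset.univ (fun j => (a j).cnt M K) (Finset.mem_univ i)]
      have h2 : ∑ j ∈ Finset.univ.erase i, (Function.update a i t' j).cnt M K =
          ∑ j ∈ Finset.univ.erase i, (a j).cnt M K := by
        refine Finset.sum_congr rfl fun j hj => ?_
        rw [Function.update_of_ne (Finset.ne_of_mem_erase hj)]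
      rw [h2]
      simp only [Function.update_self]
      omega
    omega

theorem AR.exp {M : ℕ} {K : Term F ar} {y : ℕ} (h : AR w w' a a')
    (hw : ¬ w.Exp M K y) (ha : a.Exp M K y) : a'.Exp M K y := by
  induction h with
  | here => exact absurd ha hw
  | arg f a o i t' h ih =>
    obtain ⟨h1, j, hj⟩ := ha
    by_cases hji : j = i
    · subst hji
      exact ⟨h1, j, by rw [Function.update_self]; exact ih hj⟩
    · exact ⟨h1, j, by rw [Function.update_of_ne hji]; exact hj⟩

/-- There is an innermost node of key `(M, K)`. -/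
theorem exists_inner {M : ℕ} {K : Term F ar} (a : ATm F ar) (h : 0 < a.cnt M K) :
    ∃ (f : F) (ws : Fin (ar f) → ATm F ar) (N : Term F ar), (∀ i, (ws i).cnt M K = 0) ∧
      ∀ w' : ATm F ar, ∃ a', AR (node f ws (some (M, K, N))) w' a a' := by
  induction a with
  | var x => simp [ATm.cnt] at h
  | node f a o ih =>
    by_cases h' : ∃ i, 0 < (a i).cnt M K
    · obtain ⟨i, hi⟩ := h'
      obtain ⟨g, ws, N, h1, h2⟩ := ih i hi
      refine ⟨g, ws, N, h1, fun w' => ?_⟩
      obtain ⟨a', ha'⟩ := h2 w'
      exact ⟨_, AR.arg f a o i a' ha'⟩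
    · push Not at h'
      have h0 : ∀ i, (a i).cnt M K = 0 := fun i => Nat.le_zero.1 (h' i)
      have h1 : ∃ N, o = some (M, K, N) := by
        by_contra hc
        simp only [ATm.cnt, h0, Finset.sum_const_zero, if_neg hc] at h
        exact absurd h (Nat.lt_irrefl 0)
      obtain ⟨N, rfl⟩ := h1
      exact ⟨f, a, N, h0, fun w' => ⟨w', AR.here⟩⟩

/-- There is a node of key `(M, K)` below the root, and then an innermost one. -/
theorem exists_inner_arg {M : ℕ} {K : Term F ar} (g : F) (a : Fin (ar g) → ATm F ar)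
    (o : Option (ℕ × Term F ar × Term F ar)) (i : Fin (ar g)) (h : 0 < (a i).cnt M K) :
    ∃ (f : F) (ws : Fin (ar f) → ATm F ar) (N : Term F ar), (∀ i, (ws i).cnt M K = 0) ∧
      ∀ w' : ATm F ar, ∃ a' : Fin (ar g) → ATm F ar,
        AR (node f ws (some (M, K, N))) w' (node g a o) (node g a' o) := by
  obtain ⟨f, ws, N, h1, h2⟩ := exists_inner (a i) h
  refine ⟨f, ws, N, h1, fun w' => ?_⟩
  obtain ⟨a', ha'⟩ := h2 w'
  exact ⟨_, AR.arg g a o i a' ha'⟩

end ATm

theorem esys_cons (a b : ATm F ar) (U : ASys F ar) :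
    esys (s(a, b) ::ₘ U) = s(a.erase, b.erase) ::ₘ esys U := by simp [esys]

theorem esys_add (U U' : ASys F ar) : esys (U + U') = esys U + esys U' := by simp [esys]

theorem mem_esys {U : ASys F ar} {s t : Term F ar} (h : s(s, t) ∈ esys U) :
    ∃ a b, s(a, b) ∈ U ∧ a.erase = s ∧ b.erase = t := by
  simp only [esys, Multiset.mem_map] at h
  obtain ⟨e, he, h⟩ := h
  induction e with
  | _ a b =>
    rw [Sym2.map_mk, Sym2.eq_iff] at h
    rcases h with ⟨h1, h2⟩ | ⟨h1, h2⟩
    · exact ⟨a, b, he, h1, h2⟩
    · exact ⟨b, a, by rwa [Sym2.eq_swap], h2, h1⟩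

theorem mem_vars_esys {U : ASys F ar} {x : ℕ} :
    x ∈ sysVars (esys U) ↔ ∃ a b, s(a, b) ∈ U ∧ x ∈ a.erase.vars := by
  rw [mem_sysVars]
  constructor
  · rintro ⟨e, he, hx⟩
    simp only [esys, Multiset.mem_map] at he
    obtain ⟨e', he', rfl⟩ := he
    induction e' with
    | _ a b =>
      rw [Sym2.map_mk, mem_eqVars] at hx
      rcases hx with hx | hx
      · exact ⟨a, b, he', hx⟩
      · exact ⟨b, a, by rwa [Sym2.eq_swap], hx⟩
  · rintro ⟨a, b, h, hx⟩
    refine ⟨s(a.erase, b.erase), ?_, by rw [mem_eqVars]; exact Or.inl hx⟩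
    simp only [esys, Multiset.mem_map]
    exact ⟨s(a, b), h, by rw [Sym2.map_mk]⟩

/-! ### Soundness -/

theorem eqE_val {g : ℕ → Term F ar} {a : ATm F ar} (hc : a.Coh g)
    (h : ∀ m K N, a.HasAnn m K N → EqE E K N) : EqE E (a.erase.subst g) (a.val g) := by
  induction a with
  | var x => exact Cong.refl _
  | node f a o ih =>
    rcases o with _ | ⟨m, L, N⟩
    · exact Cong.congr f fun i => ih i (hc i) fun m K N h' => h m K N (HasAnn.arg _ _ _ i _ _ _ h')
    · have h1 : EqE E ((node f a (some (m, L, N))).erase.subst g) L := by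
        rw [hc.2]
        exact Cong.congr f fun i => ih i (hc.1 i) fun m K N h' =>
          h m K N (HasAnn.arg _ _ _ i _ _ _ h')
      exact Cong.trans h1 (h m L N (HasAnn.root _ _ _ _ _))

theorem Plan.sound {m : ℕ} {L N : Term F ar} (h : Plan E m L N) : EqE E L N := by
  induction h with
  | dec m f L' N l r hlr τ la ra hla hra hlc hrc hlv hrv hlm hrm hlp hrp ihl ihr =>
    have h1 : EqE E (app f L') ((app f l).subst τ) := by
      refine Cong.congr f fun i => ?_
      have h2 := eqE_val (E := E) (hlc i) (ihl i)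
      rw [hla i, hlv i] at h2
      exact Cong.symm h2
    have h3 := eqE_val (E := E) hrc ihr
    rw [hra, hrv] at h3
    exact Cong.trans h1 (Cong.trans (Rule.eqE hlr τ) h3)
  | var m L N hL x r hlr τ hx ra hra hrc hrv hrm hrp ihr =>
    have h1 : EqE E L ((Term.var x : Term F ar).subst τ) := by
      rw [Term.subst_var, hx]; exact Cong.refl _
    have h3 := eqE_val (E := E) hrc ihr
    rw [hra, hrv] at h3
    exact Cong.trans h1 (Cong.trans (Rule.eqE hlr τ) h3)

theorem Good.eqE {g : ℕ → Term F ar} {a : ATm F ar} (h : Good E g a) :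
    EqE E (a.erase.subst g) (a.val g) := eqE_val h.1 fun _ _ _ h' => (h.2 _ _ _ h').sound

end Pool.Agent.Work.MP_8c9686_lc_T
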