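import Pool.Agent.Work.MP_8c9686_lc_T.Final

/-!
# From annotated states to the completeness theorem
-/

namespace Pool.Agent.Work.MP_8c9686_lc_T

open Pool.Agent.Work.MP_8c9686_lc Pool.Agent.Work.MP_8c9686_lc.Term Relation

variable {F : Type*} {ar : F → ℕ} {E : Set (Term F ar × Term F ar)}

/-- an annotated version of a system -/
theorem exists_annotation {g : ℕ → Term F ar} {θ : ℕ → Term F ar}
    (hg : ∀ s t : Term F ar, EqE E (s.subst θ) (t.subst θ) → ∃ a b : ATm F ar,
      a.erase = s ∧ b.erase = t ∧ Good E g a ∧ Good E g b ∧ a.val g = b.val g)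
    (S : Sys F ar) (hS : Unifies E θ S) : ∃ U : ASys F ar, esys U = S ∧
      ∀ a b, s(a, b) ∈ U → Good E g a ∧ Good E g b ∧ a.val g = b.val g := by
  induction S using Multiset.induction_on with
  | empty => exact ⟨0, rfl, fun a b h => absurd h (Multiset.notMem_zero _)⟩
  | cons e S ih =>
    induction e with
    | _ s t =>
      obtain ⟨U, hU, hv⟩ := ih fun s t hst => hS s t (Multiset.mem_cons_of_mem hst)
      obtain ⟨a, b, rfl, rfl, ha, hb, hab⟩ := hg s t (hS s t (Multiset.mem_cons_self _ _))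
      refine ⟨s(a, b) ::ₘ U, by rw [esys_cons, hU], fun c d hcd => ?_⟩
      rw [Multiset.mem_cons, Sym2.eq_iff] at hcd
      rcases hcd with (⟨rfl, rfl⟩ | ⟨rfl, rfl⟩) | hcd
      · exact ⟨ha, hb, hab⟩
      · exact ⟨hb, ha, hab.symm⟩
      · exact hv c d hcd

/-- The completeness theorem, from the solvability of all annotated states. -/
theorem reaches_of_done
    (hdone : ∀ (V : Finset ℕ) (g : ℕ → Term F ar) (Ls : List (ℕ × Term F ar)) (U : ASys F ar),
      Inv E V g Ls U → Done E V g Ls U) {S : Sys F ar} {θ : ℕ → Term F ar}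
    (hθ : Unifies E θ S) : Reaches E (StepT E) S θ := by
  obtain ⟨g, hgθ, hg⟩ := exists_plans E θ
  obtain ⟨U, hU, hv⟩ := exists_annotation hg S hθ
  have hinv : Inv E (sysVars S) g [] U := by
    refine ⟨?_, ?_, by simp, by simp, by simp, hv⟩
    · intro x hx
      rw [mem_sysVars] at hx
      obtain ⟨e, he, _⟩ := hx
      simp [bsys] at he
    · rw [hU]
  obtain ⟨V', g', L', h1, h3, h2, hagree⟩ := hdone _ _ _ _ hinv
  have e1 : bsys ([] : List (ℕ × Term F ar)) + esys U = S := by rw [hU]; simp [bsys]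
  rw [e1] at h1
  classical
  set σ' : ℕ → Term F ar := fun x =>
    if h : ∃ p ∈ L', p.1 = x then (h.choose).2 else Term.var x with hσ'
  have honce : ∀ p ∈ L', sysOcc p.1 (bsys L') = 1 := h3.once
  -- bindings are determined by their variable
  have huniq : ∀ p ∈ L', ∀ q ∈ L', p.1 = q.1 → p = q := by
    intro p hp q hq hpq
    by_contra hne
    have h1 := honce p hp
    obtain ⟨L1, L2, hL⟩ := List.append_of_mem hp
    have hq' : q ∈ L1 ++ L2 := by
      rw [hL] at hq
      simp only [List.mem_append, List.mem_cons] at hq ⊢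
      rcases hq with hq | hq | hq
      · exact Or.inl hq
      · exact absurd hq.symm hne
      · exact Or.inr hq
    have hb : bsys L' = s(Term.var p.1, p.2) ::ₘ bsys (L1 ++ L2) := by
      rw [← bsys_cons]
      unfold bsys
      rw [hL]
      rw [Multiset.coe_eq_coe]
      exact List.Perm.map _ List.perm_middle
    rw [hb, sysOcc_cons] at h1
    have h2 : 1 ≤ eqOcc p.1 s(Term.var p.1, p.2) := by
      rw [Nat.one_le_iff_ne_zero]
      intro h0
      rw [eqOcc_eq_zero, mem_eqVars] at h0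
      exact h0 (Or.inl (by simp))
    have h3 : 1 ≤ sysOcc p.1 (bsys (L1 ++ L2)) := by
      rw [Nat.one_le_iff_ne_zero]
      intro h0
      rw [sysOcc_eq_zero, mem_sysVars] at h0
      exact h0 ⟨_, mem_bsys hq', by rw [mem_eqVars]; simp [hpq]⟩
    omega
  have hσL : ∀ p ∈ L', σ' p.1 = p.2 := by
    intro p hp
    have hex : ∃ q ∈ L', q.1 = p.1 := ⟨p, hp, rfl⟩
    simp only [hσ', dif_pos hex]
    rw [huniq _ hex.choose_spec.1 p hp hex.choose_spec.2]
  have hσn : ∀ x, (∀ p ∈ L', p.1 ≠ x) → σ' x = Term.var x := by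
    intro x hx
    simp only [hσ']
    rw [dif_neg]
    rintro ⟨p, hp, h⟩
    exact hx p hp h
  refine ⟨V', bsys L', σ', h1, ⟨L', rfl, fun p hp => ⟨honce p hp, hσL p hp⟩, hσn⟩, g', ?_⟩
  intro x hx
  have hx' : EqE E (g' x) (θ x) := by rw [hagree x hx]; exact hgθ x
  refine Cong.trans ?_ hx'
  by_cases hex : ∃ p ∈ L', p.1 = x
  · obtain ⟨p, hp, rfl⟩ := hex
    rw [hσL p hp]
    exact (h3.bind p hp).symm
  · push Not at hex
    rw [hσn x hex]
    exact Cong.refl _

end Pool.Agent.Work.MP_8c9686_lc_T
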