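import Pool.Agent.Work.MP_8c9686_lc_T.Sub

/-!
# The last stage: no annotations are left

The values of the variables are then a syntactic unifier, and the system is solved by
Decomposition, Trivial and Variable Elimination.
-/

namespace Pool.Agent.Work.MP_8c9686_lc_T

open Pool.Agent.Work.MP_8c9686_lc Pool.Agent.Work.MP_8c9686_lc.Term Relation

variable {F : Type*} {ar : F → ℕ} {E : Set (Term F ar × Term F ar)}

/-- the number of symbols of a term -/
def esz : Term F ar → ℕ
  | .var _ => 1
  | .app _ ts => 1 + ∑ i, esz (ts i)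

theorem esz_arg (f : F) (ts : Fin (ar f) → Term F ar) (i : Fin (ar f)) :
    esz (ts i) < esz (app f ts) := by
  simp only [esz]
  have := Finset.single_le_sum (f := fun i => esz (ts i)) (fun _ _ => Nat.zero_le _)
    (Finset.mem_univ i)
  omega

theorem esz_subst_le {g : ℕ → Term F ar} {x : ℕ} {t : Term F ar} (h : x ∈ t.vars) :
    esz (g x) ≤ esz (t.subst g) := by
  induction t with
  | var y => rw [mem_vars_var] at h; rw [h]; exact le_rfl
  | app f ts ih =>
    rw [mem_vars_app] at h
    obtain ⟨i, hi⟩ := h
    exact (ih i hi).trans (esz_arg f (fun i => (ts i).subst g) i).le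

theorem esz_subst_lt {g : ℕ → Term F ar} {x : ℕ} {f : F} {ts : Fin (ar f) → Term F ar}
    (h : x ∈ (app f ts).vars) : esz (g x) < esz ((app f ts).subst g) := by
  rw [mem_vars_app] at h
  obtain ⟨i, hi⟩ := h
  exact (esz_subst_le hi).trans_lt (esz_arg f (fun i => (ts i).subst g) i)

/-- the number of symbols of an equation -/
def eqsz : Sym2 (Term F ar) → ℕ :=
  Sym2.lift ⟨fun s t => esz s + esz t, fun _ _ => Nat.add_comm _ _⟩

/-- the number of symbols of a system -/
def syssz (S : Sys F ar) : ℕ := (S.map eqsz).sum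

theorem syssz_cons (s t : Term F ar) (S : Sys F ar) :
    syssz (s(s, t) ::ₘ S) = esz s + esz t + syssz S := by
  simp [syssz, eqsz]

theorem syssz_add (S T : Sys F ar) : syssz (S + T) = syssz S + syssz T := by
  simp [syssz]

theorem syssz_ofFn {n : ℕ} (a b : Fin n → Term F ar) :
    syssz (List.ofFn fun i => s(a i, b i) : Sys F ar) = ∑ i, (esz (a i) + esz (b i)) := by
  simp only [syssz, Multiset.map_coe, Multiset.sum_coe, List.map_ofFn, List.sum_ofFn]
  rfl

theorem Done.zero {V : Finset ℕ} {g : ℕ → Term F ar} {Ls : List (ℕ × Term F ar)}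
    (hinv : Inv E V g Ls 0) : Done E V g Ls 0 :=
  ⟨V, g, Ls, by
    have : bsys Ls + esys (0 : ASys F ar) = bsys Ls := by simp [esys]
    rw [this], hinv, Finset.Subset.refl V, fun _ _ => rfl⟩

theorem Inv.sub {V : Finset ℕ} {g : ℕ → Term F ar} {Ls : List (ℕ × Term F ar)} {U U' : ASys F ar}
    (hinv : Inv E V g Ls U) (h1 : sysVars (esys U') ⊆ sysVars (esys U))
    (h2 : ∀ a b, s(a, b) ∈ U' → Good E g a ∧ Good E g b ∧ a.val g = b.val g) :
    Inv E V g Ls U' where
  varsL := hinv.varsL
  varsU := h1.trans hinv.varsU
  once := hinv.once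
  free p hp h := hinv.free p hp (h1 h)
  bind := hinv.bind
  valid := h2

theorem esys_ofFn {n : ℕ} (a b : Fin n → ATm F ar) :
    esys (List.ofFn fun i => s(a i, b i) : ASys F ar) =
      (List.ofFn fun i => s((a i).erase, (b i).erase) : Sys F ar) := by
  simp only [esys, Multiset.map_coe, List.map_ofFn]
  rfl

theorem mem_aofFn {n : ℕ} {a b : Fin n → ATm F ar} {u v : ATm F ar}
    (h : s(u, v) ∈ (List.ofFn fun i => s(a i, b i) : ASys F ar)) :
    ∃ i, (u = a i ∧ v = b i) ∨ (u = b i ∧ v = a i) := by
  rw [Multiset.mem_coe, List.mem_ofFn] at h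
  obtain ⟨i, hi⟩ := h
  refine ⟨i, ?_⟩
  rw [Sym2.eq_iff] at hi
  rcases hi with ⟨h1, h2⟩ | ⟨h1, h2⟩
  · exact Or.inl ⟨h1.symm, h2.symm⟩
  · exact Or.inr ⟨h2.symm, h1.symm⟩

theorem done_final_aux : ∀ (n1 n2 : ℕ) (V : Finset ℕ) (g : ℕ → Term F ar)
    (Ls : List (ℕ × Term F ar)) (U : ASys F ar), Inv E V g Ls U → NoAnn U →
    (sysVars (esys U)).card = n1 → syssz (esys U) = n2 → Done E V g Ls U := by
  intro n1
  induction n1 using Nat.strong_induction_on with
  | _ n1 ih1 =>
  intro n2
  induction n2 using Nat.strong_induction_on with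
  | _ n2 ih2 =>
  intro V g Ls U hinv hU hn1 hn2
  -- states with at most as many variables and a smaller size
  have ih : ∀ (U' : ASys F ar), Inv E V g Ls U' → NoAnn U' →
      sysVars (esys U') ⊆ sysVars (esys U) → syssz (esys U') < n2 → Done E V g Ls U' := by
    intro U' h1 h2 h3 h4
    rcases lt_or_eq_of_le (Finset.card_le_card h3) with h5 | h5
    · exact ih1 _ (by omega) _ V g Ls U' h1 h2 rfl rfl
    · exact ih2 _ h4 V g Ls U' h1 h2 (by omega) rfl
  have hvar : ∀ (x : ℕ) (b : ATm F ar) (U' : ASys F ar), U = s(ATm.var x, b) ::ₘ U' →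
      Done E V g Ls U := by
    intro x b U' hUe
    subst hUe
    obtain ⟨-, hgb, hval⟩ := hinv.valid (ATm.var x) b (Multiset.mem_cons_self _ _)
    have hbn : ∀ m L N, ¬ b.HasAnn m L N :=
      hU b (ATm.var x) (by rw [Sym2.eq_swap]; exact Multiset.mem_cons_self _ _)
    rw [val_of_noAnn hbn] at hval
    by_cases hx : x ∈ b.erase.vars
    · cases b with
      | var y =>
        simp only [ATm.erase, mem_vars_var] at hx
        subst hx
        have hd : Done E V g Ls U' := by
          refine ih U' (hinv.sub ?_ fun a b hab => hinv.valid a b (Multiset.mem_cons_of_mem hab))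
            (fun a b hab => hU a b (Multiset.mem_cons_of_mem hab)) ?_ ?_
          · rw [esys_cons, sysVars_cons]; exact Finset.subset_union_right
          · rw [esys_cons, sysVars_cons]; exact Finset.subset_union_right
          · rw [esys_cons, syssz_cons] at hn2
            simp only [ATm.erase, esz] at hn2
            omega
        refine Done.of_step ?_ (Finset.Subset.refl V) (fun _ _ => rfl) hd
        have e1 : bsys Ls + esys (s(ATm.var x, ATm.var x) ::ₘ U') =
            s(Term.var x, Term.var x) ::ₘ (bsys Ls + esys U') := by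
          rw [esys_cons, Multiset.add_cons]; rfl
        rw [e1]
        exact ReflTransGen.single (StepT.triv V _ _)
      | node f a o =>
        exfalso
        have h1 : esz (g x) < esz ((ATm.node f a o).erase.subst g) := esz_subst_lt hx
        rw [← hval] at h1
        exact absurd h1 (Nat.lt_irrefl _)
    · obtain ⟨hinv', hd⟩ := ve_move hx hinv
      apply hd
      refine ih1 _ ?_ _ V g _ _ hinv' ?_ rfl rfl
      · rw [← hn1]
        refine (Finset.card_le_card (aelim_vars hx U')).trans_lt ?_
        apply Finset.card_erase_lt_of_mem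
        rw [mem_vars_esys]
        exact ⟨_, _, Multiset.mem_cons_self _ _, by simp [ATm.erase]⟩
      · intro c d hcd m L N hm
        obtain ⟨c', d', hcd', rfl, rfl⟩ := mem_aelim hcd
        rcases ATm.hasAnn_asub hm with hm | ⟨z, _, hm⟩
        · exact hU c' d' (Multiset.mem_cons_of_mem hcd') m L N hm
        · simp only [ATm.asingle] at hm
          split_ifs at hm with h
          · exact hbn m L N hm
          · exact ATm.not_hasAnn_var hm
  by_cases hU0 : U = 0
  · subst hU0
    exact Done.zero hinv
  obtain ⟨e, U', rfl⟩ : ∃ e U', U = e ::ₘ U' := by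
    obtain ⟨e, he⟩ := Multiset.exists_mem_of_ne_zero hU0
    exact ⟨e, _, (Multiset.exists_cons_of_mem he).choose_spec⟩
  induction e with
  | _ a b =>
  cases a with
  | var x => exact hvar x b U' rfl
  | node f as o =>
    cases b with
    | var y => exact hvar y _ U' (by rw [Sym2.eq_swap])
    | node h bs o' =>
      obtain ⟨hga, hgb, hval⟩ := hinv.valid _ _ (Multiset.mem_cons_self _ _)
      have han := hU _ _ (Multiset.mem_cons_self _ _)
      have hbn := hU _ _ (show s(ATm.node h bs o', ATm.node f as o) ∈ _ by
        rw [Sym2.eq_swap]; exact Multiset.mem_cons_self _ _)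
      have ho : o = none := by
        rcases o with _ | ⟨m, L, N⟩
        · rfl
        · exact absurd (ATm.hasAnn_node.2 (Or.inl rfl)) (han m L N)
      have ho' : o' = none := by
        rcases o' with _ | ⟨m, L, N⟩
        · rfl
        · exact absurd (ATm.hasAnn_node.2 (Or.inl rfl)) (hbn m L N)
      subst ho ho'
      simp only [ATm.val, app.injEq] at hval
      obtain ⟨rfl, hval⟩ := hval
      have hval := eq_of_heq hval
      set U1 : ASys F ar := (List.ofFn fun i => s(as i, bs i) : ASys F ar) + U' with hU1
      have hmem : ∀ a b, s(a, b) ∈ U1 → (∃ i, (a = as i ∧ b = bs i) ∨ (a = bs i ∧ b = as i)) ∨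
          s(a, b) ∈ U' := by
        intro a b hab
        rw [hU1, Multiset.mem_add] at hab
        rcases hab with hab | hab
        · exact Or.inl (mem_aofFn hab)
        · exact Or.inr hab
      have hsub : sysVars (esys U1) ⊆ sysVars (esys (s(ATm.node f as none, ATm.node f bs none) ::ₘ
          U')) := by
        intro x hx
        rw [hU1, esys_add, sysVars_add, Finset.mem_union, esys_ofFn, mem_sysVars_ofFn] at hx
        rw [esys_cons, sysVars_cons, Finset.mem_union, Finset.mem_union]
        exact hx
      have hd : Done E V g Ls U1 := by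
        refine ih U1 (hinv.sub hsub fun a b hab => ?_) (fun a b hab m L N hm => ?_) hsub ?_
        · rcases hmem a b hab with ⟨i, ⟨rfl, rfl⟩ | ⟨rfl, rfl⟩⟩ | hab
          · exact ⟨good_node_none.1 hga i, good_node_none.1 hgb i, congrFun hval i⟩
          · exact ⟨good_node_none.1 hgb i, good_node_none.1 hga i, (congrFun hval i).symm⟩
          · exact hinv.valid a b (Multiset.mem_cons_of_mem hab)
        · rcases hmem a b hab with ⟨i, ⟨rfl, rfl⟩ | ⟨rfl, rfl⟩⟩ | hab
          · exact han m L N (ATm.hasAnn_node.2 (Or.inr ⟨i, hm⟩))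
          · exact hbn m L N (ATm.hasAnn_node.2 (Or.inr ⟨i, hm⟩))
          · exact hU a b (Multiset.mem_cons_of_mem hab) m L N hm
        · rw [hU1, esys_add, syssz_add, esys_ofFn, syssz_ofFn]
          rw [esys_cons, syssz_cons] at hn2
          simp only [ATm.erase, esz] at hn2
          rw [Finset.sum_add_distrib]
          omega
      refine Done.of_step ?_ (Finset.Subset.refl V) (fun _ _ => rfl) hd
      have e1 : bsys Ls + esys (s(ATm.node f as none, ATm.node f bs none) ::ₘ U') =
          s(Term.app f fun i => (as i).erase, Term.app f fun i => (bs i).erase) ::ₘ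
            (bsys Ls + esys U') := by
        rw [esys_cons, Multiset.add_cons]; rfl
      have e2 : bsys Ls + esys U1 = (List.ofFn fun i => s((as i).erase, (bs i).erase) : Sys F ar) +
          (bsys Ls + esys U') := by
        rw [hU1, esys_add, esys_ofFn]
        exact add_left_comm _ _ _
      rw [e1, e2]
      exact ReflTransGen.single (StepT.dec V f _ _ _)

/-- A state without annotations can be solved. -/
theorem done_final (V : Finset ℕ) (g : ℕ → Term F ar) (Ls : List (ℕ × Term F ar)) (U : ASys F ar)
    (hinv : Inv E V g Ls U) (hU : NoAnn U) : Done E V g Ls U :=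
  done_final_aux _ _ V g Ls U hinv hU rfl rfl

end Pool.Agent.Work.MP_8c9686_lc_T
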