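import Pool.Agent.Work.MP_8c9686_lc_T.AnnLemmas

/-! Lazy Paramodulation at an annotated node executes its plan. -/

namespace Pool.Agent.Work.MP_8c9686_lc_T

open Pool.Agent.Work.MP_8c9686_lc Pool.Agent.Work.MP_8c9686_lc.Term ATm Relation

variable {F : Type*} {ar : F → ℕ} {E : Set (Term F ar × Term F ar)}

theorem good_congr {g g' : ℕ → Term F ar} {a : ATm F ar} (h : ∀ x ∈ a.erase.vars, g x = g' x)
    (ha : Good E g a) : Good E g' a := ⟨coh_congr h ha.1, ha.2⟩

theorem mem_bsys_vars {Ls : List (ℕ × Term F ar)} {p : ℕ × Term F ar} (hp : p ∈ Ls) :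
    p.1 ∈ sysVars (bsys Ls) ∧ p.2.vars ⊆ sysVars (bsys Ls) := by
  refine ⟨?_, fun x hx => ?_⟩ <;> rw [mem_sysVars] <;> refine ⟨_, mem_bsys hp, ?_⟩ <;>
    rw [mem_eqVars]
  · simp
  · exact Or.inr hx

theorem inv_lp {V V1 : Finset ℕ} {g g1 : ℕ → Term F ar} {Ls : List (ℕ × Term F ar)}
    {a b a' w w' : ATm F ar} {U Nw : ASys F ar} (hinv : Inv E V g Ls (s(a, b) ::ₘ U))
    (hV : V ⊆ V1) (hg : ∀ x ∈ V, g1 x = g x) (hAR : AR w w' a a') (hw' : Good E g1 w')
    (hval : w'.val g1 = w.val g1) (hw'V : ∀ x ∈ w'.erase.vars, x ∈ V1 ∧ x ∉ V)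
    (hN : ∀ c d, s(c, d) ∈ Nw → Good E g1 c ∧ Good E g1 d ∧ c.val g1 = d.val g1)
    (hNV : ∀ c d, s(c, d) ∈ Nw → ∀ x ∈ c.erase.vars, x ∈ V1 ∧ (x ∉ V ∨ x ∈ a.erase.vars)) :
    Inv E V1 g1 Ls (s(a', b) ::ₘ (Nw + U)) ∧
      ∀ x ∈ sysVars (esys (s(a', b) ::ₘ (Nw + U))),
        x ∈ sysVars (esys (s(a, b) ::ₘ U)) ∨ x ∉ V := by
  have hold : ∀ c d, s(c, d) ∈ s(a, b) ::ₘ U → ∀ x ∈ c.erase.vars, x ∈ V := fun c d hcd x hx =>
    hinv.varsU (mem_vars_esys.2 ⟨c, d, hcd, hx⟩)
  have hab : s(a, b) ∈ s(a, b) ::ₘ U := Multiset.mem_cons_self _ _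
  have hba : s(b, a) ∈ s(a, b) ::ₘ U := by
    rw [(Sym2.eq_swap : s(b, a) = s(a, b))]; exact hab
  have hcase : ∀ c d, s(c, d) ∈ s(a', b) ::ₘ (Nw + U) →
      (c = a' ∧ d = b) ∨ (c = b ∧ d = a') ∨ s(c, d) ∈ Nw ∨ s(c, d) ∈ U := by
    intro c d h
    rw [Multiset.mem_cons, Multiset.mem_add] at h
    rcases h with h | h | h
    · rw [Sym2.eq_iff] at h
      rcases h with ⟨h1, h2⟩ | ⟨h1, h2⟩
      · exact Or.inl ⟨h1, h2⟩
      · exact Or.inr (Or.inl ⟨h1, h2⟩)
    · exact Or.inr (Or.inr (Or.inl h))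
    · exact Or.inr (Or.inr (Or.inr h))
  -- the variables of the new state
  have hvars : ∀ x ∈ sysVars (esys (s(a', b) ::ₘ (Nw + U))), x ∈ V1 ∧
      (x ∈ sysVars (esys (s(a, b) ::ₘ U)) ∨ x ∉ V) := by
    intro x hx
    rw [mem_vars_esys] at hx
    obtain ⟨c, d, hcd, hx⟩ := hx
    rcases hcase c d hcd with ⟨rfl, rfl⟩ | ⟨rfl, rfl⟩ | h | h
    · rcases hAR.vars x hx with hx | hx
      · exact ⟨hV (hold _ _ hab x hx), Or.inl (mem_vars_esys.2 ⟨_, _, hab, hx⟩)⟩
      · exact ⟨(hw'V x hx).1, Or.inr (hw'V x hx).2⟩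
    · exact ⟨hV (hold _ _ hba x hx), Or.inl (mem_vars_esys.2 ⟨_, _, hba, hx⟩)⟩
    · obtain ⟨h1, h2⟩ := hNV c d h x hx
      refine ⟨h1, ?_⟩
      rcases h2 with h2 | h2
      · exact Or.inr h2
      · exact Or.inl (mem_vars_esys.2 ⟨_, _, hab, h2⟩)
    · have h' : s(c, d) ∈ s(a, b) ::ₘ U := Multiset.mem_cons_of_mem h
      exact ⟨hV (hold _ _ h' x hx), Or.inl (mem_vars_esys.2 ⟨_, _, h', hx⟩)⟩
  have hgood : ∀ c d, s(c, d) ∈ s(a, b) ::ₘ U →
      Good E g1 c ∧ Good E g1 d ∧ c.val g1 = d.val g1 := by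
    intro c d hcd
    have hdc : s(d, c) ∈ s(a, b) ::ₘ U := by
      rw [(Sym2.eq_swap : s(d, c) = s(c, d))]; exact hcd
    obtain ⟨h1, h2, h3⟩ := hinv.valid c d hcd
    have e1 : ∀ x ∈ c.erase.vars, g x = g1 x := fun x hx => (hg x (hold c d hcd x hx)).symm
    have e2 : ∀ x ∈ d.erase.vars, g x = g1 x := fun x hx => (hg x (hold d c hdc x hx)).symm
    exact ⟨good_congr e1 h1, good_congr e2 h2, by rw [← val_congr e1, ← val_congr e2, h3]⟩
  have ha'g : Good E g1 a' ∧ Good E g1 b ∧ a'.val g1 = b.val g1 := by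
    obtain ⟨h1, h2, h3⟩ := hgood a b hab
    refine ⟨⟨hAR.coh hval hw'.1 h1.1, fun m L N h => ?_⟩, h2, by rw [hAR.val hval, h3]⟩
    rcases hAR.ann h with h | h
    · exact h1.2 _ _ _ h
    · exact hw'.2 _ _ _ h
  refine ⟨⟨hinv.varsL.trans hV, fun x hx => (hvars x hx).1, hinv.once, ?_, ?_, ?_⟩,
    fun x hx => (hvars x hx).2⟩
  · intro p hp hx
    rcases (hvars _ hx).2 with h | h
    · exact hinv.free p hp h
    · exact h (hinv.varsL (mem_bsys_vars hp).1)
  · intro p hp
    rw [hg _ (hinv.varsL (mem_bsys_vars hp).1),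
      subst_congr fun x hx => hg x (hinv.varsL ((mem_bsys_vars hp).2 hx))]
    exact hinv.bind p hp
  · intro c d hcd
    rcases hcase c d hcd with ⟨rfl, rfl⟩ | ⟨rfl, rfl⟩ | h | h
    · exact ha'g
    · exact ⟨ha'g.2.1, ha'g.1, ha'g.2.2.symm⟩
    · exact hN c d h
    · exact hgood c d (Multiset.mem_cons_of_mem h)

theorem cons_add_rearrange (A B : Sys F ar) (e : Sym2 (Term F ar)) :
    A + e ::ₘ B = e ::ₘ (A + B) := Multiset.add_cons e A B

/-- Lazy Paramodulation at an innermost node of key `(m, L)`. -/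
theorem lp_step {V : Finset ℕ} {g : ℕ → Term F ar} {Ls : List (ℕ × Term F ar)}
    {a b : ATm F ar} {U : ASys F ar} (hinv : Inv E V g Ls (s(a, b) ::ₘ U))
    (hfr : ¬ Frozen s(a.erase, b.erase)) {m : ℕ} {L N : Term F ar} {f : F}
    {ws : Fin (ar f) → ATm F ar} (hws : ∀ i, (ws i).cnt m L = 0) {Q : ATm F ar → Prop}
    (hC : ∀ w' : ATm F ar, ∃ a', AR (node f ws (some (m, L, N))) w' a a' ∧ Q a') :
    ∃ (V1 : Finset ℕ) (g1 : ℕ → Term F ar) (w' a' : ATm F ar) (Nw : ASys F ar),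
      AR (node f ws (some (m, L, N))) w' a a' ∧ Q a' ∧
      StepT E (V, bsys Ls + esys (s(a, b) ::ₘ U)) (V1, bsys Ls + esys (s(a', b) ::ₘ (Nw + U))) ∧
      Inv E V1 g1 Ls (s(a', b) ::ₘ (Nw + U)) ∧ V ⊆ V1 ∧ (∀ x ∈ V, g1 x = g x) ∧
      (∀ x ∈ sysVars (esys (s(a', b) ::ₘ (Nw + U))),
        x ∈ sysVars (esys (s(a, b) ::ₘ U)) ∨ x ∉ V) ∧
      (∀ m' L' N', w'.HasAnn m' L' N' → m' < m) ∧
      (∀ c d, s(c, d) ∈ Nw → c.cnt m L = 0 ∧
        ∀ m' L' N', c.HasAnn m' L' N' → m' < m ∨ a.HasAnn m' L' N') := by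
  obtain ⟨a0, hAR0, -⟩ := hC (node f ws (some (m, L, N)))
  have hab : s(a, b) ∈ s(a, b) ::ₘ U := Multiset.mem_cons_self _ _
  obtain ⟨hga, hgb, hgv⟩ := hinv.valid a b hab
  have hcoh := hAR0.coh_sub hga.1
  have hL : L = Term.app f fun i => (ws i).val g := hcoh.2
  have hplan : Plan E m L N := hga.2 _ _ _ (hAR0.ann_sub (HasAnn.root _ _ _ _ _))
  have haV : ∀ x ∈ a.erase.vars, x ∈ V := fun x hx => hinv.varsU (mem_vars_esys.2 ⟨a, b, hab, hx⟩)
  have hwsA : ∀ i, ∀ x ∈ (ws i).erase.vars, x ∈ a.erase.vars := fun i x hx =>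
    hAR0.vars_sub x (by simp only [erase, mem_vars_app]; exact ⟨i, hx⟩)
  have hwsann : ∀ i m' L' N', (ws i).HasAnn m' L' N' → a.HasAnn m' L' N' := fun i m' L' N' h =>
    hAR0.ann_sub (HasAnn.arg _ _ _ i _ _ _ h)
  obtain ⟨N0, hN0⟩ : ∃ N0, ∀ x ∈ V, x < N0 := ⟨V.sup id + 1, fun x hx =>
    Nat.lt_succ_of_le (Finset.le_sup (f := id) hx)⟩
  have hfresh : ∀ t : Term F ar, ∀ x ∈ (t.subst fun x => Term.var (x + N0)).vars, x ∉ V := by
    intro t x hx hxV
    rw [mem_vars_subst] at hx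
    obtain ⟨y, _, hy⟩ := hx
    rw [mem_vars_var] at hy
    have := hN0 x hxV
    omega
  have hdis : ∀ t : Term F ar, Disjoint (t.subst fun x => Term.var (x + N0)).vars V := by
    intro t
    rw [Finset.disjoint_left]
    exact hfresh t
  have hns : ∀ x, x + N0 ∉ V := fun x h => by have := hN0 _ h; omega
  have hinj : Function.Injective fun x : ℕ => x + N0 := fun x y h => by simpa using h
  cases hplan with
  | dec m f' L' N l r hlr τ la ra hla hra hlc hrc hlv hrv hlm hrm hlp hrp =>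
    simp only [app.injEq] at hL
    obtain ⟨rfl, hL⟩ := hL
    have hL := eq_of_heq hL
    set π : ℕ → ℕ := fun x => x + N0 with hπ
    set g1 : ℕ → Term F ar := fun x => if x ∈ V then g x else τ (x - N0) with hg1
    have hg1V : ∀ x ∈ V, g1 x = g x := fun x hx => by simp [hg1, hx]
    have hg1π : (fun x => g1 (π x)) = τ := by
      funext x
      simp only [hg1, hπ, if_neg (hns x), Nat.add_sub_cancel]
    have hwsval : ∀ i, (ws i).val g1 = (ws i).val g := fun i =>
      val_congr fun x hx => hg1V x (haV x (hwsA i x hx))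
    obtain ⟨a', hAR, hQ⟩ := hC (ra.ren π)
    set V1 : Finset ℕ := V ∪ (Term.app f' fun i => (la i).erase.subst fun x => Term.var (π x)).vars ∪
      (ra.erase.subst fun x => Term.var (π x)).vars with hV1
    set Nw : ASys F ar := (List.ofFn fun i => s(ws i, (la i).ren π) : ASys F ar) with hNw
    have hmemN : ∀ c d, s(c, d) ∈ Nw → ∃ i, (c = ws i ∧ d = (la i).ren π) ∨
        (c = (la i).ren π ∧ d = ws i) := by
      intro c d h
      simp only [hNw, Multiset.mem_coe, List.mem_ofFn] at h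
      obtain ⟨i, hi⟩ := h
      rw [Sym2.eq_iff] at hi
      rcases hi with ⟨h1, h2⟩ | ⟨h1, h2⟩
      · exact ⟨i, Or.inl ⟨h1.symm, h2.symm⟩⟩
      · exact ⟨i, Or.inr ⟨h2.symm, h1.symm⟩⟩
    have hVV1 : V ⊆ V1 := by
      intro x hx; simp only [hV1, Finset.mem_union]; exact Or.inl (Or.inl hx)
    have hgr : Good E g1 (ra.ren π) := by
      refine ⟨coh_ren ?_, fun m' L' N' h => hrp _ _ _ (hasAnn_ren h)⟩
      rw [hg1π]; exact hrc
    have hgl : ∀ i, Good E g1 ((la i).ren π) := by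
      intro i
      refine ⟨coh_ren ?_, fun m' L' N' h => hlp i _ _ _ (hasAnn_ren h)⟩
      rw [hg1π]; exact hlc i
    have hgws : ∀ i, Good E g1 (ws i) := by
      intro i
      have h1 : (ws i).Coh g := hcoh.1 i
      exact ⟨coh_congr (fun x hx => (hg1V x (haV x (hwsA i x hx))).symm) h1,
        fun m' K' N' h => hga.2 _ _ _ (hwsann i _ _ _ h)⟩
    have hvi : ∀ i, (ws i).val g1 = ((la i).ren π).val g1 := by
      intro i
      rw [hwsval, val_ren, hg1π, hlv i, congrFun hL i]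
    have hmain := inv_lp (V1 := V1) (g1 := g1) (Nw := Nw) hinv hVV1 hg1V hAR hgr
      (by rw [val_ren, hg1π, hrv]; rfl)
      (fun x hx => by
        rw [erase_ren] at hx
        refine ⟨?_, hfresh _ x hx⟩
        simp only [hV1, Finset.mem_union]; exact Or.inr hx)
      (fun c d h => by
        obtain ⟨i, ⟨rfl, rfl⟩ | ⟨rfl, rfl⟩⟩ := hmemN c d h
        · exact ⟨hgws i, hgl i, hvi i⟩
        · exact ⟨hgl i, hgws i, (hvi i).symm⟩)
      (fun c d h x hx => by
        obtain ⟨i, ⟨rfl, rfl⟩ | ⟨rfl, rfl⟩⟩ := hmemN c d h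
        · exact ⟨hVV1 (haV x (hwsA i x hx)), Or.inr (hwsA i x hx)⟩
        · rw [erase_ren] at hx
          refine ⟨?_, Or.inl (hfresh _ x hx)⟩
          simp only [hV1, Finset.mem_union, mem_vars_app]
          exact Or.inl (Or.inr ⟨i, hx⟩))
    refine ⟨V1, g1, ra.ren π, a', Nw, hAR, hQ, ?_, hmain.1, hVV1, hg1V, hmain.2,
      fun m' K' N' h => hrm _ _ _ (hasAnn_ren h), fun c d h => ?_⟩
    · have h1 : FreshVariant E V (Term.app f' fun i => (la i).erase.subst fun x => Term.var (π x))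
          (ra.erase.subst fun x => Term.var (π x)) := by
        refine ⟨Term.app f' l, r, hlr, π, hinj, ?_, by rw [hra], ?_, hdis _⟩
        · simp only [Term.subst_app]; congr 1; funext i; rw [hla i]
        · exact hdis (Term.app f' fun i => (la i).erase)
      have h2 := StepT.lpd V a.erase b.erase a'.erase _ f' (fun i => (ws i).erase) _
        (bsys Ls + esys U) h1 hfr (by
          have h3 := hAR.erase
          rw [erase_ren] at h3
          exact h3)
      have e1 : bsys Ls + esys (s(a, b) ::ₘ U) = s(a.erase, b.erase) ::ₘ (bsys Ls + esys U) := by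
        rw [esys_cons, cons_add_rearrange]
      have e2 : bsys Ls + esys (s(a', b) ::ₘ (Nw + U)) =
          (List.ofFn fun i => s((ws i).erase, (la i).erase.subst fun x => Term.var (π x)) :
            Sys F ar) + s(a'.erase, b.erase) ::ₘ (bsys Ls + esys U) := by
        have e3 : esys Nw = (List.ofFn fun i => s((ws i).erase,
            (la i).erase.subst fun x => Term.var (π x)) : Sys F ar) := by
          simp only [esys, hNw, Multiset.map_coe, List.map_ofFn]
          congr 2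
          funext i
          simp only [Function.comp, Sym2.map_mk, erase_ren]
        rw [esys_cons, esys_add, e3, cons_add_rearrange, cons_add_rearrange]
        congr 1
        rw [← add_assoc, ← add_assoc, add_comm (bsys Ls)]
      rw [e1, e2]
      exact h2
    · obtain ⟨i, ⟨rfl, rfl⟩ | ⟨rfl, rfl⟩⟩ := hmemN c d h
      · exact ⟨hws i, fun m' K' N' h => Or.inr (hwsann i _ _ _ h)⟩
      · refine ⟨cnt_eq_zero.2 fun N' h => ?_, fun m' K' N' h => Or.inl (hlm i _ _ _ (hasAnn_ren h))⟩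
        exact absurd (hlm i _ _ _ (hasAnn_ren h)) (Nat.lt_irrefl _)
  | var m L N hLn x r hlr τ hx ra hra hrc hrv hrm hrp =>
    set π : ℕ → ℕ := fun x => x + N0 with hπ
    set g1 : ℕ → Term F ar := fun x => if x ∈ V then g x else τ (x - N0) with hg1
    have hg1V : ∀ x ∈ V, g1 x = g x := fun x hx => by simp [hg1, hx]
    have hg1π : (fun x => g1 (π x)) = τ := by
      funext x
      simp only [hg1, hπ, if_neg (hns x), Nat.add_sub_cancel]
    have hwsval : ∀ i, (ws i).val g1 = (ws i).val g := fun i =>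
      val_congr fun x hx => hg1V x (haV x (hwsA i x hx))
    obtain ⟨a', hAR, hQ⟩ := hC (ra.ren π)
    set V1 : Finset ℕ := V ∪ {π x} ∪ (ra.erase.subst fun x => Term.var (π x)).vars with hV1
    set Nw : ASys F ar := {s(node f ws none, ATm.var (π x))} with hNw
    have hmemN : ∀ c d, s(c, d) ∈ Nw → (c = node f ws none ∧ d = ATm.var (π x)) ∨
        (c = ATm.var (π x) ∧ d = node f ws none) := by
      intro c d h
      simp only [hNw, Multiset.mem_singleton] at h
      rwa [Sym2.eq_iff] at h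
    have hVV1 : V ⊆ V1 := by
      intro x hx; simp only [hV1, Finset.mem_union]; exact Or.inl (Or.inl hx)
    have hgr : Good E g1 (ra.ren π) := by
      refine ⟨coh_ren ?_, fun m' L' N' h => hrp _ _ _ (hasAnn_ren h)⟩
      rw [hg1π]; exact hrc
    have hgv' : Good E g1 (ATm.var (π x) : ATm F ar) := ⟨trivial, fun _ _ _ h => by cases h⟩
    have hgws : ∀ i, Good E g1 (ws i) := by
      intro i
      have h1 : (ws i).Coh g := hcoh.1 i
      exact ⟨coh_congr (fun x hx => (hg1V x (haV x (hwsA i x hx))).symm) h1,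
        fun m' K' N' h => hga.2 _ _ _ (hwsann i _ _ _ h)⟩
    have hgn : Good E g1 (node f ws none) := by
      refine ⟨fun i => (hgws i).1, fun m' K' N' h => ?_⟩
      cases h with
      | arg _ _ _ i _ _ _ h => exact (hgws i).2 _ _ _ h
    have hnann : ∀ m' K' N', (node f ws none).HasAnn m' K' N' → a.HasAnn m' K' N' := by
      intro m' K' N' h
      cases h with
      | arg _ _ _ i _ _ _ h => exact hwsann i _ _ _ h
    have hvi : (node f ws none).val g1 = (ATm.var (π x) : ATm F ar).val g1 := by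
      have h1 : (ATm.var (π x) : ATm F ar).val g1 = τ x := congrFun hg1π x
      rw [h1, hx, hL]
      simp only [val]
      congr 1
      funext i
      exact hwsval i
    have hnA : ∀ y ∈ (node f ws none).erase.vars, y ∈ a.erase.vars := by
      intro y hy
      simp only [erase, mem_vars_app] at hy
      obtain ⟨i, hi⟩ := hy
      exact hwsA i y hi
    have hmain := inv_lp (V1 := V1) (g1 := g1) (Nw := Nw) hinv hVV1 hg1V hAR hgr
      (by rw [val_ren, hg1π, hrv]; rfl)
      (fun x hx => by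
        rw [erase_ren] at hx
        refine ⟨?_, hfresh _ x hx⟩
        simp only [hV1, Finset.mem_union]; exact Or.inr hx)
      (fun c d h => by
        obtain ⟨rfl, rfl⟩ | ⟨rfl, rfl⟩ := hmemN c d h
        · exact ⟨hgn, hgv', hvi⟩
        · exact ⟨hgv', hgn, hvi.symm⟩)
      (fun c d h y hy => by
        obtain ⟨rfl, rfl⟩ | ⟨rfl, rfl⟩ := hmemN c d h
        · exact ⟨hVV1 (haV y (hnA y hy)), Or.inr (hnA y hy)⟩
        · simp only [erase, mem_vars_var] at hy
          subst hy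
          refine ⟨?_, Or.inl (hns x)⟩
          simp only [hV1, Finset.mem_union, Finset.mem_singleton]
          exact Or.inl (Or.inr trivial))
    refine ⟨V1, g1, ra.ren π, a', Nw, hAR, hQ, ?_, hmain.1, hVV1, hg1V, hmain.2,
      fun m' K' N' h => hrm _ _ _ (hasAnn_ren h), fun c d h => ?_⟩
    · have h1 : FreshVariant E V (Term.var (π x)) (ra.erase.subst fun x => Term.var (π x)) := by
        refine ⟨Term.var x, r, hlr, π, hinj, rfl, by rw [hra], ?_, hdis _⟩
        exact hdis (Term.var x)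
      have h2 := StepT.lpv V a.erase b.erase (Term.app f fun i => (ws i).erase) a'.erase _ (π x)
        (bsys Ls + esys U) h1 hfr ⟨_, _, rfl⟩ (by
          have h3 := hAR.erase
          rw [erase_ren] at h3
          exact h3)
      have e1 : bsys Ls + esys (s(a, b) ::ₘ U) = s(a.erase, b.erase) ::ₘ (bsys Ls + esys U) := by
        rw [esys_cons, cons_add_rearrange]
      have e2 : bsys Ls + esys (s(a', b) ::ₘ (Nw + U)) =
          s(Term.app f fun i => (ws i).erase, Term.var (π x)) ::ₘ s(a'.erase, b.erase) ::ₘ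
            (bsys Ls + esys U) := by
        rw [hNw, Multiset.singleton_add, esys_cons, esys_cons, cons_add_rearrange,
          cons_add_rearrange, Multiset.cons_swap]
        rfl
      rw [e1, e2]
      exact h2
    · obtain ⟨rfl, rfl⟩ | ⟨rfl, rfl⟩ := hmemN c d h
      · refine ⟨?_, fun m' K' N' h => Or.inr (hnann _ _ _ h)⟩
        simp only [cnt, hws, Finset.sum_const_zero]
        simp
      · exact ⟨rfl, fun m' K' N' h => by cases h⟩

end Pool.Agent.Work.MP_8c9686_lc_T
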