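import Pool.Agent.Work.MP_8c9686_lc_T.LP

/-! The phase of a key: all nodes of the key are removed. -/

namespace Pool.Agent.Work.MP_8c9686_lc_T

open Pool.Agent.Work.MP_8c9686_lc Pool.Agent.Work.MP_8c9686_lc.Term ATm Relation

variable {F : Type*} {ar : F → ℕ} {E : Set (Term F ar × Term F ar)}

/-- The Variable Elimination move. -/
def VeMove (E : Set (Term F ar × Term F ar)) : Prop :=
  ∀ (V : Finset ℕ) (g : ℕ → Term F ar) (Ls : List (ℕ × Term F ar)) (y : ℕ) (b : ATm F ar)
    (U : ASys F ar), Inv E V g Ls (s(ATm.var y, b) ::ₘ U) → y ∉ b.erase.vars →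
    Inv E V g ((y, b.erase) :: Ls.map fun p => (p.1, p.2.subst (single y b.erase)))
        (U.map (Sym2.map (asub (asingle y b)))) ∧
      (Done E V g ((y, b.erase) :: Ls.map fun p => (p.1, p.2.subst (single y b.erase)))
        (U.map (Sym2.map (asub (asingle y b)))) → Done E V g Ls (s(ATm.var y, b) ::ₘ U))

/-- Number of old variables. -/
noncomputable def nO (O : Finset ℕ) (U : ASys F ar) : ℕ := (sysVars (esys U) ∩ O).card

/-- Number of variables. -/
noncomputable def nV (U : ASys F ar) : ℕ := (sysVars (esys U)).card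

/-- Number of nodes of the key in an equation. -/
noncomputable def eK (m : ℕ) (L : Term F ar) : Sym2 (ATm F ar) → ℕ :=
  Sym2.lift ⟨fun a b => a.cnt m L + b.cnt m L, fun _ _ => Nat.add_comm _ _⟩

/-- Number of nodes of the key. -/
noncomputable def nK (m : ℕ) (L : Term F ar) (U : ASys F ar) : ℕ := (U.map (eK m L)).sum

theorem nK_cons (m : ℕ) (L : Term F ar) (a b : ATm F ar) (U : ASys F ar) :
    nK m L (s(a, b) ::ₘ U) = a.cnt m L + b.cnt m L + nK m L U := by
  simp [nK, eK]

theorem nK_add (m : ℕ) (L : Term F ar) (U U' : ASys F ar) :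
    nK m L (U + U') = nK m L U + nK m L U' := by simp [nK]

theorem nK_eq_zero {m : ℕ} {L : Term F ar} {U : ASys F ar} :
    nK m L U = 0 ↔ ∀ a b, s(a, b) ∈ U → a.cnt m L = 0 := by
  simp only [nK, Multiset.sum_eq_zero_iff, Multiset.mem_map]
  constructor
  · intro h a b hab
    have := h _ ⟨s(a, b), hab, rfl⟩
    simp only [eK, Sym2.lift_mk] at this
    omega
  · rintro h _ ⟨e, he, rfl⟩
    induction e with
    | _ a b =>
      simp only [eK, Sym2.lift_mk]
      have h1 := h a b he
      have h2 := h b a (by rw [(Sym2.eq_swap : s(b, a) = s(a, b))]; exact he)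
      omega

/-- The invariant of the phase. -/
def Ivo (m : ℕ) (L : Term F ar) (O : Finset ℕ) (U : ASys F ar) : Prop :=
  ∀ y b, s(ATm.var y, b) ∈ U → y ∉ O → b.cnt m L = 0 ∨ b.Exp m L y

theorem asingle_self (y : ℕ) (b : ATm F ar) : asingle y b y = b := by simp [asingle]

theorem asingle_of_ne {y z : ℕ} (h : z ≠ y) (b : ATm F ar) : asingle y b z = ATm.var z := by
  simp [asingle, h]

theorem asub_eq_var {y z : ℕ} {a b : ATm F ar} (h : a.asub (asingle y b) = ATm.var z) :
    (a = ATm.var z ∧ z ≠ y) ∨ (a = ATm.var y ∧ b = ATm.var z) := by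
  cases a with
  | var x =>
    simp only [asub, asingle] at h
    split_ifs at h with hx
    · exact Or.inr ⟨by rw [hx], h⟩
    · simp only [ATm.var.injEq] at h
      subst h
      exact Or.inl ⟨rfl, hx⟩
  | node f a o => simp [asub] at h

theorem mem_ve {y : ℕ} {b c d : ATm F ar} {U : ASys F ar}
    (h : s(c, d) ∈ U.map (Sym2.map (asub (asingle y b)))) :
    ∃ c' d', s(c', d') ∈ U ∧ c'.asub (asingle y b) = c ∧ d'.asub (asingle y b) = d := by
  simp only [Multiset.mem_map] at h
  obtain ⟨e, he, h⟩ := h
  induction e with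
  | _ c' d' =>
    rw [Sym2.map_mk, Sym2.eq_iff] at h
    rcases h with ⟨h1, h2⟩ | ⟨h1, h2⟩
    · exact ⟨c', d', he, h1, h2⟩
    · exact ⟨d', c', by rw [(Sym2.eq_swap : s(d', c') = s(c', d'))]; exact he, h2, h1⟩

theorem vars_ve {y : ℕ} {b : ATm F ar} {U : ASys F ar} (hy : y ∉ b.erase.vars) :
    ∀ x ∈ sysVars (esys (U.map (Sym2.map (asub (asingle y b))))),
      x ≠ y ∧ x ∈ sysVars (esys (s(ATm.var y, b) ::ₘ U)) := by
  intro x hx
  rw [mem_vars_esys] at hx
  obtain ⟨c, d, hcd, hx⟩ := hx
  obtain ⟨c', d', hcd', rfl, rfl⟩ := mem_ve hcd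
  rw [erase_asub, mem_vars_subst] at hx
  obtain ⟨z, hz, hx⟩ := hx
  by_cases hzy : z = y
  · subst hzy
    rw [asingle_self] at hx
    refine ⟨fun h => hy (h ▸ hx), mem_vars_esys.2 ⟨b, ATm.var z, ?_, hx⟩⟩
    rw [(Sym2.eq_swap : s(b, ATm.var z) = s(ATm.var z, b))]
    exact Multiset.mem_cons_self _ _
  · rw [asingle_of_ne hzy] at hx
    simp only [erase, mem_vars_var] at hx
    subst hx
    exact ⟨hzy, mem_vars_esys.2 ⟨c', d', Multiset.mem_cons_of_mem hcd', hz⟩⟩

theorem y_mem_ve {y : ℕ} {b : ATm F ar} {U : ASys F ar} :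
    y ∈ sysVars (esys (s(ATm.var y, b) ::ₘ U)) :=
  mem_vars_esys.2 ⟨ATm.var y, b, Multiset.mem_cons_self _ _, by simp [erase]⟩

theorem ann_ve {y : ℕ} {b c d : ATm F ar} {U : ASys F ar}
    (h : s(c, d) ∈ U.map (Sym2.map (asub (asingle y b)))) {m : ℕ} {K N : Term F ar}
    (ha : c.HasAnn m K N) :
    ∃ c' d', s(c', d') ∈ s(ATm.var y, b) ::ₘ U ∧ c'.HasAnn m K N := by
  obtain ⟨c', d', hcd', rfl, rfl⟩ := mem_ve h
  rcases hasAnn_asub ha with ha | ⟨x, _, ha⟩
  · exact ⟨c', d', Multiset.mem_cons_of_mem hcd', ha⟩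
  · by_cases hx : x = y
    · subst hx
      rw [asingle_self] at ha
      refine ⟨b, ATm.var x, ?_, ha⟩
      rw [(Sym2.eq_swap : s(b, ATm.var x) = s(ATm.var x, b))]
      exact Multiset.mem_cons_self _ _
    · rw [asingle_of_ne hx] at ha
      cases ha

theorem nK_ve {m : ℕ} {L : Term F ar} {y : ℕ} {b : ATm F ar} (hb : b.cnt m L = 0)
    (U : ASys F ar) : nK m L (U.map (Sym2.map (asub (asingle y b)))) = nK m L U := by
  have hσ : ∀ x, (asingle y b x).cnt m L = 0 := by
    intro x
    by_cases hx : x = y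
    · subst hx; rw [asingle_self]; exact hb
    · rw [asingle_of_ne hx]; rfl
  simp only [nK, Multiset.map_map]
  congr 1
  refine Multiset.map_congr rfl fun e _ => ?_
  induction e with
  | _ c d => simp only [Function.comp, Sym2.map_mk, eK, Sym2.lift_mk, cnt_asub hσ]

theorem lex3 {a b c a' b' c' : ℕ} (h : a' < a ∨ (a' ≤ a ∧ (b' < b ∨ (b' ≤ b ∧ c' < c)))) :
    Prod.Lex (· < ·) (Prod.Lex (· < ·) (· < ·)) (a', b', c') (a, b, c) := by
  rcases h with h | ⟨h, h'⟩
  · exact Prod.Lex.left _ _ h
  · rcases Nat.lt_or_eq_of_le h with h | rfl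
    · exact Prod.Lex.left _ _ h
    · refine Prod.Lex.right _ ?_
      rcases h' with h' | ⟨h', h''⟩
      · exact Prod.Lex.left _ _ h'
      · rcases Nat.lt_or_eq_of_le h' with h' | rfl
        · exact Prod.Lex.left _ _ h'
        · exact Prod.Lex.right _ h''

theorem lex3_wf : WellFounded (Prod.Lex ((· < ·) : ℕ → ℕ → Prop)
    (Prod.Lex ((· < ·) : ℕ → ℕ → Prop) ((· < ·) : ℕ → ℕ → Prop))) :=
  WellFounded.prod_lex Nat.lt_wfRel.wf (WellFounded.prod_lex Nat.lt_wfRel.wf Nat.lt_wfRel.wf)

/-- one phase -/
theorem phase (hve : VeMove E) (m : ℕ) (L : Term F ar) (D : Finset (Term F ar))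
    [DecidableEq (Term F ar)]
    (IH : ∀ V g Ls U, Inv E V g Ls U → Bdd m D U → Done E V g Ls U)
    (V : Finset ℕ) (g : ℕ → Term F ar) (Ls : List (ℕ × Term F ar)) (U : ASys F ar)
    (hinv : Inv E V g Ls U) (hbdd : Bdd m (insert L D) U) : Done E V g Ls U := by
  -- the set of old variables
  obtain ⟨O, hOV, hivo⟩ : ∃ O : Finset ℕ, O ⊆ V ∧ Ivo m L O U := by
    refine ⟨V, subset_rfl, fun y b hyb hy => absurd (hinv.varsU ?_) hy⟩
    exact mem_vars_esys.2 ⟨ATm.var y, b, hyb, by simp [erase]⟩
  suffices H : ∀ μ : ℕ × ℕ × ℕ, ∀ V g Ls U, μ = (nO O U, nK m L U, nV U) → Inv E V g Ls U →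
      Bdd m (insert L D) U → O ⊆ V → Ivo m L O U → Done E V g Ls U from
    H _ V g Ls U rfl hinv hbdd hOV hivo
  clear hivo hOV hbdd hinv U Ls g V
  intro μ
  induction μ using lex3_wf.induction with
  | _ μ ih =>
  intro V g Ls U hμ hinv hbdd hOV hivo
  subst hμ
  have ih' : ∀ V g Ls U', (nO O U' < nO O U ∨ (nO O U' ≤ nO O U ∧ (nK m L U' < nK m L U ∨
      (nK m L U' ≤ nK m L U ∧ nV U' < nV U)))) → Inv E V g Ls U' →
      Bdd m (insert L D) U' → O ⊆ V → Ivo m L O U' → Done E V g Ls U' :=
    fun V g Ls U' h => ih _ (lex3 h) V g Ls U' rfl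
  clear ih
  by_cases h0 : nK m L U = 0
  · -- the key has disappeared
    refine IH V g Ls U hinv fun a b hab m' L' N' h => ?_
    rcases hbdd a b hab m' L' N' h with h1 | ⟨rfl, h1⟩
    · exact Or.inl h1
    · rcases Finset.mem_insert.1 h1 with rfl | h1
      · exact absurd h (cnt_eq_zero.1 (nK_eq_zero.1 h0 a b hab) N')
      · exact Or.inr ⟨rfl, h1⟩
  -- Variable Elimination
  by_cases h1 : ∃ y b, s(ATm.var y, b) ∈ U ∧ y ∉ b.erase.vars ∧ y ∉ O
  · obtain ⟨y, b, hyb, hy, hyO⟩ := h1
    obtain ⟨U0, rfl⟩ := Multiset.exists_cons_of_mem hyb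
    obtain ⟨hinv', hdone⟩ := hve V g Ls y b U0 hinv hy
    have hb0 : b.cnt m L = 0 := by
      rcases hivo y b hyb hyO with h | h
      · exact h
      · exact absurd h.mem_vars hy
    have hσ : ∀ x, (asingle y b x).cnt m L = 0 := by
      intro x
      by_cases hx : x = y
      · subst hx; rw [asingle_self]; exact hb0
      · rw [asingle_of_ne hx]; rfl
    refine hdone (ih' _ _ _ _ (Or.inr ⟨?_, Or.inr ⟨?_, ?_⟩⟩) hinv' ?_ hOV ?_)
    · exact Finset.card_le_card (Finset.inter_subset_inter_right fun x hx => (vars_ve hy x hx).2)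
    · rw [nK_ve hb0, nK_cons]; omega
    · exact Finset.card_lt_card (Finset.ssubset_iff_of_subset (fun x hx => (vars_ve hy x hx).2)
        |>.2 ⟨y, y_mem_ve, fun h => (vars_ve hy y h).1 rfl⟩)
    · intro c d hcd m' L' N' h
      obtain ⟨c', d', hcd', h'⟩ := ann_ve hcd h
      exact hbdd c' d' hcd' m' L' N' h'
    · intro z c hzc hz
      obtain ⟨a', c', hac', h2, rfl⟩ := mem_ve hzc
      rcases asub_eq_var h2 with ⟨rfl, hzy⟩ | ⟨rfl, rfl⟩
      · rcases hivo z c' (Multiset.mem_cons_of_mem hac') hz with h | h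
        · left; rw [cnt_asub hσ]; exact h
        · right; exact h.asub (asingle_of_ne hzy b)
      · rcases hivo y c' (Multiset.mem_cons_of_mem hac') hyO with h | h
        · left; rw [cnt_asub hσ]; exact h
        · right; exact h.asub (asingle_self y _)
  have hcyc1 : ∀ y b, s(ATm.var y, b) ∈ U → y ∉ O → y ∈ b.erase.vars := by
    intro y b hyb hyO
    by_contra hy
    exact h1 ⟨y, b, hyb, hy, hyO⟩
  clear h1
  by_cases h2 : ∃ y b, s(ATm.var y, b) ∈ U ∧ y ∉ b.erase.vars
  · obtain ⟨y, b, hyb, hy⟩ := h2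
    have hyO : y ∈ O := by
      by_contra h; exact hy (hcyc1 y b hyb h)
    obtain ⟨U0, rfl⟩ := Multiset.exists_cons_of_mem hyb
    obtain ⟨hinv', hdone⟩ := hve V g Ls y b U0 hinv hy
    refine hdone (ih' _ _ _ _ (Or.inl ?_) hinv' ?_ hOV ?_)
    · refine Finset.card_lt_card (Finset.ssubset_iff_of_subset
        (Finset.inter_subset_inter_right fun x hx => (vars_ve hy x hx).2) |>.2 ⟨y, ?_, ?_⟩)
      · exact Finset.mem_inter.2 ⟨y_mem_ve, hyO⟩
      · intro h
        exact (vars_ve hy y (Finset.mem_inter.1 h).1).1 rfl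
    · intro c d hcd m' L' N' h
      obtain ⟨c', d', hcd', h'⟩ := ann_ve hcd h
      exact hbdd c' d' hcd' m' L' N' h'
    · intro z c hzc hz
      obtain ⟨a', c', hac', h2, rfl⟩ := mem_ve hzc
      rcases asub_eq_var h2 with ⟨rfl, hzy⟩ | ⟨rfl, rfl⟩
      · right
        have h3 := hcyc1 z c' (Multiset.mem_cons_of_mem hac') hz
        have h4 : c'.Exp m L z := by
          rcases hivo z c' (Multiset.mem_cons_of_mem hac') hz with h | h
          · exact exp_of_cnt h3 h
          · exact h
        exact h4.asub (asingle_of_ne hzy b)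
      · exfalso
        have h3 := hcyc1 z (ATm.var y) (by
          rw [(Sym2.eq_swap : s(ATm.var z, ATm.var y) = s(ATm.var y, ATm.var z))]; exact hyb) hz
        simp only [erase, mem_vars_var] at h3 hy
        exact hy h3.symm
  have hcyc : ∀ y b, s(ATm.var y, b) ∈ U → y ∈ b.erase.vars := by
    intro y b hyb
    by_contra hy
    exact h2 ⟨y, b, hyb, hy⟩
  clear h2 hcyc1
  have hsw : ∀ a b, s(a, b) ∈ U → s(b, a) ∈ U := fun a b h => by
    rw [(Sym2.eq_swap : s(b, a) = s(a, b))]; exact h
  have hnf : ∀ a b, s(a, b) ∈ U → ¬ Frozen s(a.erase, b.erase) := by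
    rintro a b hab ⟨x, t, h, hx⟩
    rw [Sym2.eq_iff] at h
    rcases h with ⟨h3, h4⟩ | ⟨h3, h4⟩
    · cases a with
      | var z =>
        simp only [erase, Term.var.injEq] at h3
        subst h3 h4
        exact hx (hcyc z b hab)
      | node f a o => simp [erase] at h3
    · cases b with
      | var z =>
        simp only [erase, Term.var.injEq] at h4
        subst h3 h4
        exact hx (hcyc z a (hsw _ _ hab))
      | node f a o => simp [erase] at h4
  -- Lazy Paramodulation at an innermost node of the key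
  have hlp : ∀ (a b : ATm F ar) (U0 : ASys F ar), U = s(a, b) ::ₘ U0 → ∀ (f : F)
      (ws : Fin (ar f) → ATm F ar) (N : Term F ar), (∀ i, (ws i).cnt m L = 0) →
      ∀ Q : ATm F ar → Prop, (∀ w' : ATm F ar, ∃ a', AR (node f ws (some (m, L, N))) w' a a' ∧ Q a') →
      (∀ a', Q a' → (∀ z, a' ≠ ATm.var z) ∨ b.cnt m L = 0) → Done E V g Ls U := by
    intro a b U0 hU f ws N hws Q hC hQ
    have hab : s(a, b) ∈ U := by rw [hU]; exact Multiset.mem_cons_self _ _
    obtain ⟨V1, g1, w', a', Nw, hAR, hQa, hstep, hinv', hV, hg, hvars, hw', hNw⟩ :=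
      lp_step (hU ▸ hinv) (hnf a b hab) hws hC
    have hw'0 : w'.cnt m L = 0 := cnt_eq_zero.2 fun N' h => absurd (hw' _ _ _ h) (Nat.lt_irrefl m)
    have hcnt := hAR.cnt (M := m) (K := L)
    have hw1 : (node f ws (some (m, L, N))).cnt m L = 1 := by
      simp only [ATm.cnt, hws, Finset.sum_const_zero]
      simp
    have hN0 : nK m L Nw = 0 := nK_eq_zero.2 fun c d h => (hNw c d h).1
    have hcase : ∀ c d, s(c, d) ∈ s(a', b) ::ₘ (Nw + U0) →
        (c = a' ∧ d = b) ∨ (c = b ∧ d = a') ∨ s(c, d) ∈ Nw ∨ s(c, d) ∈ U0 := by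
      intro c d h
      rw [Multiset.mem_cons, Multiset.mem_add] at h
      rcases h with h | h | h
      · rw [Sym2.eq_iff] at h
        rcases h with ⟨h1, h2⟩ | ⟨h1, h2⟩
        · exact Or.inl ⟨h1, h2⟩
        · exact Or.inr (Or.inl ⟨h1, h2⟩)
      · exact Or.inr (Or.inr (Or.inl h))
      · exact Or.inr (Or.inr (Or.inr h))
    have hd : Done E V1 g1 Ls (s(a', b) ::ₘ (Nw + U0)) := by
      refine ih' _ _ _ _ (Or.inr ⟨?_, Or.inl ?_⟩) hinv' ?_ (hOV.trans hV) ?_
      · refine Finset.card_le_card fun x hx => ?_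
        rw [Finset.mem_inter] at hx ⊢
        rcases hvars x hx.1 with h | h
        · exact ⟨by rw [hU]; exact h, hx.2⟩
        · exact absurd (hOV hx.2) h
      · rw [hU, nK_cons, nK_cons, nK_add, hN0]
        omega
      · intro c d hcd m' L' N' h
        rcases hcase c d hcd with ⟨rfl, rfl⟩ | ⟨rfl, rfl⟩ | h' | h'
        · rcases hAR.ann h with h | h
          · exact hbdd _ _ hab _ _ _ h
          · exact Or.inl (hw' _ _ _ h)
        · exact hbdd _ _ (hsw _ _ hab) _ _ _ h
        · rcases (hNw c d h').2 _ _ _ h with h | h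
          · exact Or.inl h
          · exact hbdd _ _ hab _ _ _ h
        · exact hbdd c d (by rw [hU]; exact Multiset.mem_cons_of_mem h') _ _ _ h
      · intro z c hzc hz
        rcases hcase _ c hzc with ⟨h3, rfl⟩ | ⟨h3, rfl⟩ | h' | h'
        · rcases hQ a' hQa with h | h
          · exact absurd h3.symm (h z)
          · exact Or.inl h
        · subst h3
          right
          rcases hivo z a (hsw _ _ hab) hz with h | h
          · have := hAR.cnt (M := m) (K := L)
            omega
          · exact hAR.exp (fun h' => h'.1 ⟨N, rfl⟩) h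
        · left
          exact (hNw _ _ (by rw [(Sym2.eq_swap : s(c, ATm.var z) = s(ATm.var z, c))]; exact h')).1
        · exact hivo z c (by rw [hU]; exact Multiset.mem_cons_of_mem h') hz
    rw [hU]
    exact Done.of_step (ReflTransGen.single hstep) hV hg hd
  -- choose an equation with a node of the key
  obtain ⟨a, b, hab, ha⟩ : ∃ a b, s(a, b) ∈ U ∧ 0 < a.cnt m L := by
    by_contra hc
    push Not at hc
    exact h0 (nK_eq_zero.2 fun a b hab => Nat.le_zero.1 (hc a b hab))
  obtain ⟨U0, hU⟩ := Multiset.exists_cons_of_mem hab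
  have hU' : U = s(b, a) ::ₘ U0 := by rw [hU, (Sym2.eq_swap : s(a, b) = s(b, a))]
  cases a with
  | var x => simp [ATm.cnt] at ha
  | node f as o =>
    by_cases h3 : ∃ i, 0 < (as i).cnt m L
    · obtain ⟨i, hi⟩ := h3
      obtain ⟨f', ws, N, hws, hC⟩ := exists_inner_arg f as o i hi
      refine hlp _ b U0 hU f' ws N hws (fun a' => ∃ as', a' = node f as' o) (fun w' => ?_) ?_
      · obtain ⟨as', h⟩ := hC w'
        exact ⟨_, h, as', rfl⟩
      · rintro a' ⟨as', rfl⟩
        exact Or.inl fun z h => by cases h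
    · have h3' : ∀ i, (as i).cnt m L = 0 := fun i => by
        by_contra hc; exact h3 ⟨i, Nat.pos_of_ne_zero hc⟩
      have h4 : ∃ N, o = some (m, L, N) := by
        by_contra hc
        simp only [ATm.cnt, h3', Finset.sum_const_zero, if_neg hc] at ha
        exact absurd ha (Nat.lt_irrefl 0)
      obtain ⟨N, rfl⟩ := h4
      by_cases hb : b.cnt m L = 0
      · exact hlp _ b U0 hU f as N h3' (fun _ => True) (fun w' => ⟨w', AR.here, trivial⟩)
          fun a' _ => Or.inr hb
      · cases b with
        | var x => simp [ATm.cnt] at hb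
        | node f' bs o' =>
          by_cases h5 : ∃ i, 0 < (bs i).cnt m L
          · obtain ⟨i, hi⟩ := h5
            obtain ⟨f'', ws, N', hws, hC⟩ := exists_inner_arg f' bs o' i hi
            refine hlp _ _ U0 hU' f'' ws N' hws (fun a' => ∃ as', a' = node f' as' o')
              (fun w' => ?_) ?_
            · obtain ⟨as', h⟩ := hC w'
              exact ⟨_, h, as', rfl⟩
            · rintro a' ⟨as', rfl⟩
              exact Or.inl fun z h => by cases h
          · have h5' : ∀ i, (bs i).cnt m L = 0 := fun i => by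
              by_contra hc; exact h5 ⟨i, Nat.pos_of_ne_zero hc⟩
            have h6 : ∃ N, o' = some (m, L, N) := by
              by_contra hc
              simp only [ATm.cnt, h5', Finset.sum_const_zero, if_neg hc] at hb
              exact hb trivial
            obtain ⟨N', rfl⟩ := h6
            -- both roots are nodes of the key: erase the annotations
            obtain ⟨hga, hgb, hv⟩ := hinv.valid _ _ hab
            have hLa : L = Term.app f fun i => (as i).val g := hga.1.2
            have hLb : L = Term.app f' fun i => (bs i).val g := hgb.1.2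
            have hesys : esys U = esys (s(node f as none, node f' bs none) ::ₘ U0) := by
              rw [hU, esys_cons, esys_cons]; rfl
            have hgn : ∀ (f : F) (as : Fin (ar f) → ATm F ar) (N : Term F ar),
                Good E g (node f as (some (m, L, N))) → Good E g (node f as none) := by
              intro f as N h
              refine ⟨h.1.1, fun m' K' N' h' => ?_⟩
              cases h' with
              | arg _ _ _ i _ _ _ h' => exact h.2 _ _ _ (HasAnn.arg _ _ _ i _ _ _ h')
            have hann : ∀ (f : F) (as : Fin (ar f) → ATm F ar) (N : Term F ar) (m' : ℕ)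
                (K' N' : Term F ar), (node f as none).HasAnn m' K' N' →
                (node f as (some (m, L, N))).HasAnn m' K' N' := by
              intro f as N m' K' N' h'
              cases h' with
              | arg _ _ _ i _ _ _ h' => exact HasAnn.arg _ _ _ i _ _ _ h'
            have hcase : ∀ c d, s(c, d) ∈ s(node f as none, node f' bs none) ::ₘ U0 →
                (c = node f as none ∧ d = node f' bs none) ∨
                (c = node f' bs none ∧ d = node f as none) ∨ s(c, d) ∈ U0 := by
              intro c d h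
              rw [Multiset.mem_cons] at h
              rcases h with h | h
              · rw [Sym2.eq_iff] at h
                rcases h with ⟨h1, h2⟩ | ⟨h1, h2⟩
                · exact Or.inl ⟨h1, h2⟩
                · exact Or.inr (Or.inl ⟨h1, h2⟩)
              · exact Or.inr (Or.inr h)
            have hvv : (node f as none).val g = (node f' bs none).val g := by
              simp only [ATm.val]; rw [← hLa, ← hLb]
            have hdone : Done E V g Ls (s(node f as none, node f' bs none) ::ₘ U0) := by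
              refine ih' _ _ _ _ (Or.inr ⟨?_, Or.inl ?_⟩) ⟨hinv.varsL, ?_, hinv.once, ?_,
                hinv.bind, ?_⟩ ?_ hOV ?_
              · simp only [nO]; rw [hesys]
              · rw [hU, nK_cons, nK_cons]
                simp only [ATm.cnt, h3', h5', Finset.sum_const_zero]
                simp
              · rw [← hesys]; exact hinv.varsU
              · rw [← hesys]; exact hinv.free
              · intro c d h
                rcases hcase c d h with ⟨rfl, rfl⟩ | ⟨rfl, rfl⟩ | h
                · exact ⟨hgn _ _ _ hga, hgn _ _ _ hgb, hvv⟩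
                · exact ⟨hgn _ _ _ hgb, hgn _ _ _ hga, hvv.symm⟩
                · exact hinv.valid c d (by rw [hU]; exact Multiset.mem_cons_of_mem h)
              · intro c d h m' L' N'' h'
                rcases hcase c d h with ⟨rfl, rfl⟩ | ⟨rfl, rfl⟩ | h
                · exact hbdd _ _ hab _ _ _ (hann _ _ _ _ _ _ h')
                · exact hbdd _ _ (hsw _ _ hab) _ _ _ (hann _ _ _ _ _ _ h')
                · exact hbdd c d (by rw [hU]; exact Multiset.mem_cons_of_mem h) _ _ _ h'
              · intro z c h hz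
                rcases hcase _ c h with ⟨h', _⟩ | ⟨h', _⟩ | h
                · cases h'
                · cases h'
                · exact hivo z c (by rw [hU]; exact Multiset.mem_cons_of_mem h) hz
            obtain ⟨V', g', Ls', k1, k2, k3, k4⟩ := hdone
            exact ⟨V', g', Ls', by rw [hesys]; exact k1, k2, k3, k4⟩

open Classical in
theorem exists_labels (a : ATm F ar) : ∃ D : Finset (Term F ar), ∀ m L N, a.HasAnn m L N → L ∈ D := by
  induction a with
  | var x => exact ⟨∅, fun m L N h => by cases h⟩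
  | node f a o ih =>
    choose D hD using ih
    refine ⟨Finset.univ.biUnion D ∪ (match o with | none => ∅ | some (_, L, _) => {L}),
      fun m L N h => ?_⟩
    rw [Finset.mem_union]
    cases h with
    | root => right; simp
    | arg _ _ _ i _ _ _ h =>
      left; rw [Finset.mem_biUnion]; exact ⟨i, Finset.mem_univ i, hD i m L N h⟩

open Classical in
theorem exists_bounds (U : ASys F ar) : ∃ (B : ℕ) (D : Finset (Term F ar)),
    ∀ a b, s(a, b) ∈ U → ∀ m L N, a.HasAnn m L N → m < B ∧ L ∈ D := by
  induction U using Multiset.induction_on with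
  | empty => exact ⟨0, ∅, fun a b h => by simp at h⟩
  | cons e U ih =>
    obtain ⟨B, D, h⟩ := ih
    induction e with
    | _ c d =>
      obtain ⟨B1, h1⟩ := exists_bound c
      obtain ⟨B2, h2⟩ := exists_bound d
      obtain ⟨D1, h1'⟩ := exists_labels c
      obtain ⟨D2, h2'⟩ := exists_labels d
      refine ⟨B + B1 + B2, D ∪ (D1 ∪ D2), fun a b hab m L N ha => ?_⟩
      rw [Multiset.mem_cons, Sym2.eq_iff] at hab
      simp only [Finset.mem_union]
      rcases hab with (⟨rfl, rfl⟩ | ⟨rfl, rfl⟩) | hab
      · have := h1 m L N ha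
        exact ⟨by omega, Or.inr (Or.inl (h1' m L N ha))⟩
      · have := h2 m L N ha
        exact ⟨by omega, Or.inr (Or.inr (h2' m L N ha))⟩
      · have := (h a b hab m L N ha).1
        exact ⟨by omega, Or.inl (h a b hab m L N ha).2⟩

open Classical in
/-- All phases. -/
theorem done_phases (hve : VeMove E)
    (hfin : ∀ V g Ls U, Inv E V g Ls U → NoAnn U → Done E V g Ls U)
    (V : Finset ℕ) (g : ℕ → Term F ar) (Ls : List (ℕ × Term F ar)) (U : ASys F ar)
    (hinv : Inv E V g Ls U) : Done E V g Ls U := by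
  have key : ∀ (m : ℕ) (D : Finset (Term F ar)) V g Ls U, Inv E V g Ls U → Bdd m D U →
      Done E V g Ls U := by
    intro m
    induction m with
    | zero =>
      intro D
      induction D using Finset.induction_on with
      | empty =>
        intro V g Ls U hinv hb
        refine hfin V g Ls U hinv fun a b hab m L N h => ?_
        rcases hb a b hab m L N h with h | ⟨_, h⟩
        · exact absurd h (Nat.not_lt_zero _)
        · simp at h
      | insert L D _ ih => exact fun V g Ls U => phase hve 0 L D ih V g Ls U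
    | succ m ihm =>
      intro D
      induction D using Finset.induction_on with
      | empty =>
        intro V g Ls U hinv hb
        obtain ⟨_, D, hD⟩ := exists_bounds U
        refine ihm D V g Ls U hinv fun a b hab m' L N h => ?_
        rcases hb a b hab m' L N h with h' | ⟨_, h'⟩
        · rcases Nat.lt_or_eq_of_le (Nat.le_of_lt_succ h') with h' | rfl
          · exact Or.inl h'
          · exact Or.inr ⟨rfl, (hD a b hab _ L N h).2⟩
        · simp at h'
      | insert L D _ ih => exact fun V g Ls U => phase hve (m + 1) L D ih V g Ls U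
  obtain ⟨B, D, hD⟩ := exists_bounds U
  exact key B ∅ V g Ls U hinv fun a b hab m L N h => Or.inl (hD a b hab m L N h).1

end Pool.Agent.Work.MP_8c9686_lc_T
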