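import Pool.Agent.Work.MP_8c9686_lc_T.Assembly
import Pool.Agent.Work.MP_8c9686_lc_T.Phase

/-!
# Completeness of the eager derivations of `T`
-/

namespace Pool.Agent.Work.MP_8c9686_lc_T

open Pool.Agent.Work.MP_8c9686_lc Pool.Agent.Work.MP_8c9686_lc.Term

variable {F : Type*} {ar : F → ℕ} {E : Set (Term F ar × Term F ar)}

/-- Every `E`-unifier is covered by an eager derivation of `T`. -/
theorem eagerT_complete {S : Sys F ar} {θ : ℕ → Term F ar} (hθ : Unifies E θ S) :
    Reaches E (StepT E) S θ :=
  reaches_of_done (done_phases (fun _ _ _ _ _ _ hinv hy => ve_move hy hinv) done_final) hθ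

end Pool.Agent.Work.MP_8c9686_lc_T
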