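import Pool.Agent.Work.MP_8c9686_lc.Basic

/-! A total well-founded monotone order on terms: shortlex on the prefix words. -/

namespace Pool.Agent.Work.MP_8c9686_lc_T

open Pool.Agent.Work.MP_8c9686_lc Pool.Agent.Work.MP_8c9686_lc.Term

variable {F : Type*} {ar : F → ℕ}

/-- Prefix word of a term. -/
def enc : Term F ar → List (F ⊕ ℕ)
  | var x => [Sum.inr x]
  | app f a => Sum.inl f :: (List.ofFn fun i => enc (a i)).flatten

theorem enc_ne_nil (t : Term F ar) : enc t ≠ [] := by
  cases t <;> simp [enc]

theorem flatten_inj {α : Type*} : ∀ (n : ℕ) {β : Type*} (e : β → List α) (a b : Fin n → β)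
    (_ : ∀ i, ∀ (t : β) (r r' : List α), e (a i) ++ r = e t ++ r' → a i = t ∧ r = r')
    (r r' : List α),
    (List.ofFn fun i => e (a i)).flatten ++ r = (List.ofFn fun i => e (b i)).flatten ++ r' →
    a = b ∧ r = r'
  | 0, _, e, a, b, _, r, r', h => by
    refine ⟨Subsingleton.elim _ _, by simpa using h⟩
  | n + 1, _, e, a, b, ih, r, r', h => by
    rw [List.ofFn_succ, List.ofFn_succ, List.flatten_cons, List.flatten_cons, List.append_assoc,
      List.append_assoc] at h
    obtain ⟨h0, h1⟩ := ih 0 _ _ _ h
    obtain ⟨h2, h3⟩ := flatten_inj n e (fun i => a i.succ) (fun i => b i.succ)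
      (fun i => ih i.succ) r r' h1
    refine ⟨?_, h3⟩
    funext i
    refine Fin.cases h0 (fun j => congrFun h2 j) i

theorem enc_append_inj : ∀ (s t : Term F ar) (r r' : List (F ⊕ ℕ)),
    enc s ++ r = enc t ++ r' → s = t ∧ r = r' := by
  intro s
  induction s with
  | var x =>
    intro t r r' h
    cases t with
    | var y => simp only [enc, List.cons_append, List.nil_append, List.cons.injEq,
        Sum.inr.injEq] at h; exact ⟨by rw [h.1], h.2⟩
    | app g b => simp [enc] at h
  | app f a ih =>
    intro t r r' h
    cases t with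
    | var y => simp [enc] at h
    | app g b =>
      simp only [enc, List.cons_append, List.cons.injEq, Sum.inl.injEq] at h
      obtain ⟨rfl, h⟩ := h
      obtain ⟨h1, h2⟩ := flatten_inj (ar f) enc a b ih r r' h
      exact ⟨by rw [h1], h2⟩

theorem enc_injective : Function.Injective (enc : Term F ar → List (F ⊕ ℕ)) := by
  intro s t h
  exact (enc_append_inj s t [] [] (by rw [h])).1

/-- The order on terms. -/
def lt (s t : Term F ar) : Prop := List.Shortlex WellOrderingRel (enc s) (enc t)

theorem lt_wf : WellFounded (lt : Term F ar → Term F ar → Prop) :=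
  InvImage.wf enc (List.Shortlex.wf WellOrderingRel.isWellOrder.wf)

theorem lt_tri {s t : Term F ar} (h : ¬ lt s t) (h' : ¬ lt t s) : s = t := by
  apply enc_injective
  exact (inferInstance : Std.Trichotomous (List.Shortlex (WellOrderingRel :
    F ⊕ ℕ → F ⊕ ℕ → Prop))).trichotomous _ _ h h'

theorem shortlex_trans {α : Type*} {r : α → α → Prop} [IsTrans α r] {a b c : List α}
    (h : List.Shortlex r a b) (h' : List.Shortlex r b c) : List.Shortlex r a c := by
  rw [List.shortlex_def] at h h' ⊢
  rcases h with h | ⟨h1, h2⟩
  · rcases h' with h' | ⟨h1', h2'⟩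
    · exact Or.inl (h.trans h')
    · exact Or.inl (by omega)
  · rcases h' with h' | ⟨h1', h2'⟩
    · exact Or.inl (by omega)
    · refine Or.inr ⟨by omega, ?_⟩
      clear h1 h1'
      induction h2 generalizing c with
      | nil => cases h2' <;> exact List.Lex.nil
      | cons h ih =>
        cases h2' with
        | cons h' => exact List.Lex.cons (ih h')
        | rel h' => exact List.Lex.rel h'
      | rel h =>
        cases h2' with
        | cons h' => exact List.Lex.rel h
        | rel h' => exact List.Lex.rel (_root_.trans h h')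

theorem lt_trans {a b c : Term F ar} (h : lt a b) (h' : lt b c) : lt a c :=
  shortlex_trans h h'

theorem lt_irrefl (a : Term F ar) : ¬ lt a a := fun h => lt_wf.irrefl.irrefl a h

theorem ofFn_split {α : Type*} : ∀ (n : ℕ) (g : Fin n → List α) (i : Fin n),
    ∃ p q : List α, ∀ x, (List.ofFn (Function.update g i x)).flatten = p ++ x ++ q
  | 0, _, i => i.elim0
  | n + 1, g, i => by
    refine Fin.cases ?_ (fun j => ?_) i
    · refine ⟨[], (List.ofFn fun i => g i.succ).flatten, fun x => ?_⟩
      rw [List.ofFn_succ, List.flatten_cons]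
      simp [Function.update_of_ne, Fin.succ_ne_zero]
    · obtain ⟨p, q, h⟩ := ofFn_split n (fun i => g i.succ) j
      refine ⟨g 0 ++ p, q, fun x => ?_⟩
      have h' := h x
      rw [List.ofFn_succ, List.flatten_cons]
      have h1 : (fun i : Fin n => Function.update g j.succ x i.succ) =
          Function.update (fun i : Fin n => g i.succ) j x := by
        funext k
        by_cases hk : k = j
        · subst hk; simp
        · rw [Function.update_of_ne hk, Function.update_of_ne (by simpa using hk)]
      rw [h1, h', Function.update_of_ne (Fin.succ_ne_zero j).symm]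
      simp [List.append_assoc]

theorem enc_split (f : F) (a : Fin (ar f) → Term F ar) (i : Fin (ar f)) :
    ∃ p q : List (F ⊕ ℕ), ∀ x, enc (app f (Function.update a i x)) = Sum.inl f :: (p ++ enc x ++ q)
    := by
  obtain ⟨p, q, h⟩ := ofFn_split (ar f) (fun i => enc (a i)) i
  refine ⟨p, q, fun x => ?_⟩
  rw [← h (enc x)]
  simp only [enc, List.cons.injEq, true_and]
  congr 2
  funext k
  by_cases hk : k = i
  · subst hk; simp
  · simp [Function.update_of_ne hk]

theorem lt_arg (f : F) (a : Fin (ar f) → Term F ar) (i : Fin (ar f)) : lt (a i) (app f a) := by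
  obtain ⟨p, q, h⟩ := enc_split f a i
  have h' := h (a i)
  rw [Function.update_eq_self] at h'
  apply List.Shortlex.of_length_lt
  rw [h']
  simp only [List.length_cons, List.length_append]
  omega

theorem lex_append_right_of_length {α : Type*} {r : α → α → Prop} {s t : List α}
    (h : List.Lex r s t) (hl : s.length = t.length) (q : List α) :
    List.Lex r (s ++ q) (t ++ q) := by
  induction h with
  | nil => simp at hl
  | cons h ih => exact List.Lex.cons (ih (by simpa using hl))
  | rel h => exact List.Lex.rel h

theorem lt_update (f : F) (a : Fin (ar f) → Term F ar) (i : Fin (ar f)) (b : Term F ar)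
    (hb : lt b (a i)) : lt (app f (Function.update a i b)) (app f a) := by
  obtain ⟨p, q, h⟩ := enc_split f a i
  have h' := h (a i)
  rw [Function.update_eq_self] at h'
  unfold lt
  rw [h b, h']
  have hb' : List.Shortlex WellOrderingRel (enc b) (enc (a i)) := hb
  rw [List.shortlex_def] at hb' ⊢
  rcases hb' with hb' | ⟨h1, h2⟩
  · left
    simp only [List.length_cons, List.length_append]
    omega
  · right
    refine ⟨by simp [h1], ?_⟩
    refine List.Lex.cons ?_
    rw [List.append_assoc, List.append_assoc]
    exact List.Lex.append_left _ (lex_append_right_of_length h2 h1 q) p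

end Pool.Agent.Work.MP_8c9686_lc_T
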