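import Pool.Agent.Work.MP_8c9686_lc_T.Ann
import Pool.Agent.Work.MP_8c9686_lc_T.Order

/-! Part 1: every label evaluates, by finite plans, to a value that only depends on its class. -/

namespace Pool.Agent.Work.MP_8c9686_lc_T

open Pool.Agent.Work.MP_8c9686_lc Pool.Agent.Work.MP_8c9686_lc.Term

variable {F : Type*} {ar : F → ℕ}

/-- Terms whose leaves are labels. -/
inductive Sk (F : Type*) (ar : F → ℕ) : Type _
  | leaf (t : Term F ar) : Sk F ar
  | node (f : F) (a : Fin (ar f) → Sk F ar) : Sk F ar

namespace Sk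

/-- The label obtained by opening all leaves. -/
def flat : Sk F ar → Term F ar
  | leaf t => t
  | node f a => app f fun i => (a i).flat

/-- `g` is a label at a leaf. -/
def Mem (g : Term F ar) : Sk F ar → Prop
  | leaf t => g = t
  | node _ a => ∃ i, (a i).Mem g

/-- `s[τ]`. -/
def inst (τ : ℕ → Term F ar) : Term F ar → Sk F ar
  | Term.var x => leaf (τ x)
  | Term.app f a => node f fun i => inst τ (a i)

theorem flat_inst (τ : ℕ → Term F ar) (s : Term F ar) : (inst τ s).flat = s.subst τ := by
  induction s with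
  | var x => rfl
  | app f a ih => simp only [inst, flat, Term.subst_app]; congr 1; funext i; exact ih i

/-- All labels satisfy `P`. -/
def All (P : Term F ar → Prop) (X : Sk F ar) : Prop := ∀ g, X.Mem g → P g

theorem all_leaf {P : Term F ar → Prop} {t : Term F ar} : (leaf t).All P ↔ P t := by
  simp [All, Mem]

theorem all_node {P : Term F ar → Prop} {f : F} {a : Fin (ar f) → Sk F ar} :
    (node f a).All P ↔ ∀ i, (a i).All P := by
  simp only [All, Mem]
  constructor
  · intro h i g hg; exact h g ⟨i, hg⟩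
  · rintro h g ⟨i, hg⟩; exact h i g hg

theorem all_inst {P : Term F ar → Prop} {τ : ℕ → Term F ar} (h : ∀ x, P (τ x)) (s : Term F ar) :
    (inst τ s).All P := by
  induction s with
  | var x => exact all_leaf.2 (h x)
  | app f a ih => exact all_node.2 ih

theorem mem_lt_or_eq {X : Sk F ar} {g : Term F ar} (h : X.Mem g) : lt g X.flat ∨ g = X.flat := by
  induction X with
  | leaf t => exact Or.inr h
  | node f a ih =>
    obtain ⟨i, hi⟩ := h
    left
    have h1 : lt (a i).flat (node f a).flat := lt_arg f (fun i => (a i).flat) i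
    rcases ih i hi with h2 | h2
    · exact lt_trans h2 h1
    · rw [h2]; exact h1

end Sk

open Sk

/-- `l = r` or `r = l` is an equation of `E`. -/
def Rule (E : Set (Term F ar × Term F ar)) (l r : Term F ar) : Prop := (l, r) ∈ E ∨ (r, l) ∈ E

theorem Rule.symm {E : Set (Term F ar × Term F ar)} {l r : Term F ar} (h : Rule E l r) :
    Rule E r l := Or.symm h

theorem Rule.eqE {E : Set (Term F ar × Term F ar)} {l r : Term F ar} (h : Rule E l r)
    (τ : ℕ → Term F ar) : EqE E (l.subst τ) (r.subst τ) := by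
  rcases h with h | h
  · exact Cong.ax ⟨l, r, τ, h, rfl⟩
  · exact Cong.symm (Cong.ax ⟨r, l, τ, h, rfl⟩)

variable (E : Set (Term F ar × Term F ar))

/-- Big-step evaluation. -/
inductive Ev : Sk F ar → Sk F ar → Prop
  | leaf (t : Term F ar) : Ev (leaf t) (leaf t)
  | node (f : F) (X Y : Fin (ar f) → Sk F ar) (h : ∀ i, Ev (X i) (Y i)) :
      Ev (node f X) (node f Y)
  | step (f : F) (X Y : Fin (ar f) → Sk F ar) (l : Fin (ar f) → Term F ar) (r : Term F ar)
      (τ : ℕ → Term F ar) (Z : Fin (ar f) → Sk F ar) (W : Sk F ar) (h : ∀ i, Ev (X i) (Y i))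
      (hr : Rule E (app f l) r) (hl : ∀ i, Ev (inst τ (l i)) (Z i))
      (hZ : ∀ i, (Z i).flat = (Y i).flat) (hW : Ev (inst τ r) W) : Ev (node f X) W
  | exp (f : F) (X Y : Fin (ar f) → Sk F ar) (x : ℕ) (r : Term F ar)
      (τ : ℕ → Term F ar) (W : Sk F ar) (h : ∀ i, Ev (X i) (Y i))
      (hr : Rule E (var x) r) (hx : τ x = app f fun i => (Y i).flat)
      (hW : Ev (inst τ r) W) : Ev (node f X) W

variable {E}

theorem Ev.refl (X : Sk F ar) : Ev E X X := by
  induction X with
  | leaf t => exact Ev.leaf t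
  | node f a ih => exact Ev.node f a a ih

theorem Ev.trans {X Y Z : Sk F ar} (h : Ev E X Y) (h' : Ev E Y Z) : Ev E X Z := by
  induction h generalizing Z with
  | leaf t => exact h'
  | node f X Y h ih =>
    cases h' with
    | node _ _ Z hh => exact Ev.node f X Z fun i => ih i (hh i)
    | step _ _ Y' l r τ Z' _ hh hr hl hZ hW =>
      exact Ev.step f X Y' l r τ Z' _ (fun i => ih i (hh i)) hr hl hZ hW
    | exp _ _ Y' x r τ _ hh hr hx hW =>
      exact Ev.exp f X Y' x r τ _ (fun i => ih i (hh i)) hr hx hW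
  | step f X Y l r τ Z' W h hr hl hZ hW ih ihl ihW =>
    exact Ev.step f X Y l r τ Z' _ h hr hl hZ (ihW h')
  | exp f X Y x r τ W h hr hx hW ih ihW =>
    exact Ev.exp f X Y x r τ _ h hr hx (ihW h')

theorem Ev.sound {X Y : Sk F ar} (h : Ev E X Y) : EqE E X.flat Y.flat := by
  induction h with
  | leaf t => exact Cong.refl _
  | node f X Y h ih => exact Cong.congr f ih
  | step f X Y l r τ Z' W h hr hl hZ hW ih ihl ihW =>
    have h1 : EqE E (Sk.node f X).flat ((app f l).subst τ) := by
      refine Cong.congr f fun i => ?_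
      have h2 := ihl i
      rw [flat_inst, hZ i] at h2
      exact Cong.trans (ih i) (Cong.symm h2)
    rw [flat_inst] at ihW
    exact Cong.trans h1 (Cong.trans (hr.eqE τ) ihW)
  | exp f X Y x r τ W h hr hx hW ih ihW =>
    have h1 : EqE E (Sk.node f X).flat ((var x : Term F ar).subst τ) := by
      rw [Term.subst_var, hx]
      exact Cong.congr f ih
    rw [flat_inst] at ihW
    exact Cong.trans h1 (Cong.trans (hr.eqE τ) ihW)

theorem ev_leaf {t : Term F ar} {Y : Sk F ar} (h : Ev E (Sk.leaf t) Y) : Y = Sk.leaf t := by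
  cases h; rfl

/-- The node all of whose arguments are leaves. -/
def fnode (f : F) (G : Fin (ar f) → Term F ar) : Sk F ar := Sk.node f fun i => Sk.leaf (G i)

theorem flat_fnode (f : F) (G : Fin (ar f) → Term F ar) : (fnode f G).flat = app f G := rfl

theorem ev_refine {f : F} {G : Fin (ar f) → Term F ar} {Y : Sk F ar}
    {P : Term F ar → Prop} (h : Ev E (fnode f G) Y) (Z : Fin (ar f) → Sk F ar)
    (hZ : ∀ i, (Z i).flat = G i) (hP : ∀ i, (Z i).All P) (hY : Y.All P) :
    ∃ Y', Ev E (Sk.node f Z) Y' ∧ Y'.flat = Y.flat ∧ Y'.All P := by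
  unfold fnode at h
  cases h with
  | node _ _ Y hh =>
    refine ⟨Sk.node f Z, Ev.refl _, ?_, all_node.2 hP⟩
    simp only [flat]
    congr 1
    funext i
    rw [ev_leaf (hh i)]
    exact hZ i
  | step _ _ Y' l r τ Z' _ hh hr hl hZ' hW =>
    refine ⟨Y, Ev.step f Z Z l r τ Z' Y (fun i => Ev.refl _) hr hl (fun i => ?_) hW, rfl, hY⟩
    rw [hZ' i, ev_leaf (hh i)]
    exact (hZ i).symm
  | exp _ _ Y' x r τ _ hh hr hx hW =>
    refine ⟨Y, Ev.exp f Z Z x r τ Y (fun i => Ev.refl _) hr ?_ hW, rfl, hY⟩
    rw [hx]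
    congr 1
    funext i
    rw [ev_leaf (hh i)]
    exact (hZ i).symm

variable (E)

/-- The functional defining irreducible labels. -/
def irrF : (t : Term F ar) → ((s : Term F ar) → lt s t → Prop) → Prop
  | var k, _ => ∀ t, EqE E (var k) t → ¬ lt t (var k)
  | app f G, R => (∀ i, R (G i) (lt_arg f G i)) ∧
      ∀ Y, Ev E (fnode f G) Y → ∀ h : lt Y.flat (app f G), ¬ ∀ g, (hg : Y.Mem g) →
        R g ((mem_lt_or_eq hg).elim (fun h' => lt_trans h' h) (fun h' => h' ▸ h))

/-- Irreducible labels. -/
def irr : Term F ar → Prop := lt_wf.fix (irrF E)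

theorem irr_var (k : ℕ) : irr E (var k) ↔ ∀ t, EqE E (var k) t → ¬ lt t (var k) := by
  unfold irr
  rw [WellFounded.fix_eq]
  rfl

theorem irr_app (f : F) (G : Fin (ar f) → Term F ar) : irr E (app f G) ↔ (∀ i, irr E (G i)) ∧
    ∀ Y, Ev E (fnode f G) Y → lt Y.flat (app f G) → ¬ Y.All (irr E) := by
  unfold irr
  rw [WellFounded.fix_eq]
  rfl

variable {E}

theorem update_flat {f : F} (Z : Fin (ar f) → Sk F ar) (i : Fin (ar f)) (Y : Sk F ar) :
    (fun j => (Function.update Z i Y j).flat) = Function.update (fun j => (Z j).flat) i Y.flat := by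
  funext j
  by_cases hj : j = i
  · subst hj; simp
  · simp [Function.update_of_ne hj]

theorem irr_of_min (Z : Sk F ar) (hZ : Z.All (irr E))
    (h : ∀ Y, Ev E Z Y → Y.All (irr E) → ¬ lt Y.flat Z.flat) : irr E Z.flat := by
  induction Z with
  | leaf t => exact all_leaf.1 hZ
  | node f Z ih =>
    have hZ' := all_node.1 hZ
    simp only [flat]
    rw [irr_app]
    refine ⟨fun i => ih i (hZ' i) fun Y hY hYi hlt => ?_, fun Y hY hlt hYi => ?_⟩
    · refine h (Sk.node f (Function.update Z i Y)) (Ev.node f _ _ fun j => ?_)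
        (all_node.2 fun j => ?_) ?_
      · by_cases hj : j = i
        · subst hj; simpa using hY
        · rw [Function.update_of_ne hj]; exact Ev.refl _
      · by_cases hj : j = i
        · subst hj; simpa using hYi
        · rw [Function.update_of_ne hj]; exact hZ' j
      · simp only [flat]
        rw [update_flat]
        exact lt_update f _ i _ hlt
    · obtain ⟨Y', h1, h2, h3⟩ := ev_refine hY Z (fun i => rfl) hZ' hYi
      exact h Y' h1 h3 (by rw [h2]; exact hlt)

theorem irr_of_class_min (t : Term F ar) (h : ∀ s, EqE E t s → ¬ lt s t) : irr E t := by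
  induction t with
  | var k => exact (irr_var E k).2 h
  | app f G ih =>
    rw [irr_app]
    refine ⟨fun i => ih i fun s hs hlt => ?_, fun Y hY hlt _ => h _ hY.sound hlt⟩
    refine h (app f (Function.update G i s)) (Cong.congr f fun j => ?_) (lt_update f G i s hlt)
    by_cases hj : j = i
    · subst hj; rw [Function.update_self]; exact hs
    · rw [Function.update_of_ne hj]; exact Cong.refl _

variable (E)

/-- The labels reachable from `X`. -/
def reach (X : Sk F ar) : Set (Term F ar) := {t | ∃ Z, Ev E X Z ∧ Z.All (irr E) ∧ Z.flat = t}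

open Classical in
/-- The least reachable label. -/
noncomputable def best (X : Sk F ar) : Term F ar :=
  if h : (reach E X).Nonempty then lt_wf.min (reach E X) h else X.flat

/-- The value of a label. -/
noncomputable def value : Term F ar → Term F ar
  | var k => lt_wf.min {t | EqE E (var k) t} ⟨var k, Cong.refl _⟩
  | app f a => best E (fnode f fun i => value (a i))

variable {E}

theorem best_spec {X : Sk F ar} (hX : X.All (irr E)) :
    ∃ Z, Ev E X Z ∧ Z.All (irr E) ∧ Z.flat = best E X ∧
      ∀ Y, Ev E X Y → Y.All (irr E) → ¬ lt Y.flat (best E X) := by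
  have h : (reach E X).Nonempty := ⟨X.flat, X, Ev.refl _, hX, rfl⟩
  have h1 : best E X = lt_wf.min (reach E X) h := by simp [best, h]
  rw [h1]
  obtain ⟨Z, hZ, hZi, hZf⟩ := lt_wf.min_mem (reach E X) h
  exact ⟨Z, hZ, hZi, hZf, fun Y hY hYi => lt_wf.not_lt_min (reach E X) ⟨Y, hY, hYi, rfl⟩⟩

theorem irr_best {X : Sk F ar} (hX : X.All (irr E)) : irr E (best E X) := by
  obtain ⟨Z, hZ, hZi, hZf, hmin⟩ := best_spec hX
  rw [← hZf] at hmin ⊢
  exact irr_of_min Z hZi fun Y hY hYi => hmin Y (hZ.trans hY) hYi

theorem value_irr (t : Term F ar) : irr E (value E t) := by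
  induction t with
  | var k =>
    have h : EqE E (var k) (value E (var k)) := lt_wf.min_mem {t | EqE E (var k) t} _
    refine irr_of_class_min _ fun s hs => ?_
    exact lt_wf.not_lt_min {t | EqE E (var k) t} (Cong.trans h hs)
  | app f a ih => exact irr_best (all_node.2 fun i => all_leaf.2 (ih i))

theorem value_eqE (t : Term F ar) : EqE E (value E t) t := by
  induction t with
  | var k =>
    have h : EqE E (var k) (value E (var k)) := lt_wf.min_mem {t | EqE E (var k) t} _
    exact Cong.symm h
  | app f a ih =>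
    have hX : (fnode f fun i => value E (a i)).All (irr E) :=
      all_node.2 fun i => all_leaf.2 (value_irr (a i))
    obtain ⟨Z, hZ, -, hZf, -⟩ := best_spec hX
    have h1 := hZ.sound
    rw [hZf] at h1
    exact Cong.trans (Cong.symm h1) (Cong.congr f ih)

theorem value_of_irr (t : Term F ar) (h : irr E t) : value E t = t := by
  induction t with
  | var k =>
    have h1 : EqE E (var k) (value E (var k)) := lt_wf.min_mem {t | EqE E (var k) t} _
    refine lt_tri ((irr_var E k).1 h _ h1) ?_
    exact lt_wf.not_lt_min {t | EqE E (var k) t} (Cong.refl _)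
  | app f a ih =>
    rw [irr_app] at h
    have h1 : (fun i => value E (a i)) = a := by funext i; exact ih i (h.1 i)
    have hX : (fnode f a).All (irr E) := all_node.2 fun i => all_leaf.2 (h.1 i)
    have h2 : value E (app f a) = best E (fnode f a) := by
      show best E (fnode f fun i => value E (a i)) = _
      rw [h1]
    rw [h2]
    obtain ⟨Z, hZ, hZi, hZf, hmin⟩ := best_spec hX
    refine lt_tri (fun hlt => ?_) (hmin _ (Ev.refl _) hX)
    rw [← hZf] at hlt
    exact h.2 Z hZ hlt hZi

theorem value_app_congr {f : F} {a b : Fin (ar f) → Term F ar}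
    (h : ∀ i, value E (a i) = value E (b i)) : value E (app f a) = value E (app f b) := by
  show best E (fnode f fun i => value E (a i)) = best E (fnode f fun i => value E (b i))
  congr 2
  funext i
  exact h i

theorem value_subst (s : Term F ar) (σ : ℕ → Term F ar) :
    value E (s.subst σ) = value E (s.subst fun x => value E (σ x)) := by
  induction s with
  | var x => exact (value_of_irr _ (value_irr _)).symm
  | app f a ih => exact value_app_congr ih

/-- Lemma V. -/
theorem ev_value (s : Term F ar) (τ : ℕ → Term F ar) (hτ : ∀ x, irr E (τ x)) :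
    ∃ Z, Ev E (inst τ s) Z ∧ Z.flat = value E (s.subst τ) ∧ Z.All (irr E) := by
  induction s with
  | var x =>
    exact ⟨Sk.leaf (τ x), Ev.leaf _, (value_of_irr _ (hτ x)).symm, all_leaf.2 (hτ x)⟩
  | app f a ih =>
    choose Z hZ hZf hZi using ih
    have hX : (fnode f fun i => value E ((a i).subst τ)).All (irr E) :=
      all_node.2 fun i => all_leaf.2 (value_irr _)
    obtain ⟨Y, hY, hYi, hYf, -⟩ := best_spec hX
    obtain ⟨Y', h1, h2, h3⟩ := ev_refine hY Z hZf hZi hYi
    exact ⟨Y', (Ev.node f _ _ hZ).trans h1, by rw [h2, hYf]; rfl, h3⟩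

/-- Lemma M. -/
theorem value_rule_le {s s' : Term F ar} (h : Rule E s s') (τ : ℕ → Term F ar)
    (hτ : ∀ x, irr E (τ x)) : ¬ lt (value E (s'.subst τ)) (value E (s.subst τ)) := by
  obtain ⟨W, hW, hWf, hWi⟩ := ev_value s' τ hτ
  cases s with
  | var x =>
    rw [Term.subst_var, value_of_irr _ (hτ x)]
    intro hlt
    have hx := hτ x
    generalize hN : τ x = N at hlt hx
    cases N with
    | var k =>
      refine (irr_var E k).1 hx _ ?_ hlt
      have h1 := h.eqE τ
      rw [Term.subst_var, hN] at h1
      exact Cong.trans h1 (Cong.symm (value_eqE _))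
    | app g N =>
      refine ((irr_app E g N).1 hx).2 W ?_ (by rw [hWf]; exact hlt) hWi
      exact Ev.exp g _ (fun i => Sk.leaf (N i)) x s' τ W (fun i => Ev.refl _) h hN hW
  | app f l =>
    choose Z hZ hZf hZi using fun i => ev_value (l i) τ hτ
    have hX : (fnode f fun i => value E ((l i).subst τ)).All (irr E) :=
      all_node.2 fun i => all_leaf.2 (value_irr _)
    obtain ⟨-, -, -, -, hmin⟩ := best_spec hX
    have h1 := hmin W (Ev.step f _ (fun i => Sk.leaf (value E ((l i).subst τ))) l s' τ Z W
      (fun i => Ev.refl _) h hZ hZf hW) hWi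
    rw [hWf] at h1
    exact h1

theorem value_rule {s s' : Term F ar} (h : Rule E s s') (σ : ℕ → Term F ar) :
    value E (s.subst σ) = value E (s'.subst σ) := by
  rw [value_subst s, value_subst s']
  exact lt_tri (value_rule_le h.symm _ fun x => value_irr _)
    (value_rule_le h _ fun x => value_irr _)

/-- `E`-equal labels have the same value. -/
theorem value_congr {s t : Term F ar} (h : EqE E s t) : value E s = value E t := by
  unfold EqE at h
  induction h with
  | ax h =>
    obtain ⟨l, r, ρ, hlr, he⟩ := h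
    obtain ⟨rfl, rfl⟩ := Prod.mk.inj he
    exact value_rule (Or.inl hlr) ρ
  | refl t => rfl
  | symm _ ih => exact ih.symm
  | trans _ _ ih1 ih2 => exact ih1.trans ih2
  | congr f _ ih => exact value_app_congr ih

/-! ### Annotated terms from evaluations -/

open ATm

theorem exists_bound (a : ATm F ar) : ∃ B : ℕ, ∀ m L N, a.HasAnn m L N → m < B := by
  induction a with
  | var x => exact ⟨0, fun m L N h => by cases h⟩
  | node f a o ih =>
    choose B hB using ih
    refine ⟨(∑ i, B i) + (match o with | none => 0 | some (m, _, _) => m + 1),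
      fun m L N h => ?_⟩
    cases h with
    | root => simp only; omega
    | arg _ _ _ i _ _ _ h =>
      have h1 := hB i m L N h
      have h2 : B i ≤ ∑ i, B i := Finset.single_le_sum (f := B) (fun _ _ => Nat.zero_le _)
        (Finset.mem_univ i)
      omega

theorem exists_common_bound {n : ℕ} (a : Fin n → ATm F ar) (b : ATm F ar) :
    ∃ B : ℕ, (∀ i m L N, (a i).HasAnn m L N → m < B) ∧ ∀ m L N, b.HasAnn m L N → m < B := by
  choose A hA using fun i => exists_bound (a i)
  obtain ⟨B, hB⟩ := exists_bound b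
  refine ⟨(∑ i, A i) + B, fun i m L N h => ?_, fun m L N h => ?_⟩
  · have h1 := hA i m L N h
    have h2 : A i ≤ ∑ i, A i := Finset.single_le_sum (f := A) (fun _ _ => Nat.zero_le _)
      (Finset.mem_univ i)
    omega
  · have h1 := hB m L N h
    omega

theorem Ev.annotate {X Y : Sk F ar} (h : Ev E X Y) : ∀ (s : Term F ar) (τ : ℕ → Term F ar),
    inst τ s = X → ∃ a : ATm F ar, a.erase = s ∧ Good E τ a ∧ a.val τ = Y.flat := by
  induction h with
  | leaf t =>
    intro s τ hs
    cases s with
    | var x =>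
      refine ⟨ATm.var x, rfl, ⟨trivial, fun m L N h => by cases h⟩, ?_⟩
      simp only [Sk.inst, Sk.leaf.injEq] at hs
      exact hs
    | app g a => simp [Sk.inst] at hs
  | node f X Y h ih =>
    intro s τ hs
    cases s with
    | var x => simp [Sk.inst] at hs
    | app g a =>
      simp only [Sk.inst, Sk.node.injEq] at hs
      obtain ⟨rfl, hs⟩ := hs
      have hs' := eq_of_heq hs
      choose b hb1 hb2 hb3 using fun i => ih i (a i) τ (congrFun hs' i)
      refine ⟨ATm.node g b none, by simp only [erase]; congr 1; funext i; exact hb1 i,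
        ⟨fun i => (hb2 i).1, fun m L N h => ?_⟩, ?_⟩
      · cases h with
        | arg _ _ _ i _ _ _ h => exact (hb2 i).2 m L N h
      · simp only [val, flat]; congr 1; funext i; exact hb3 i
  | step f X Y l r τ' Z W h hr hl hZ hW ih ihl ihW =>
    intro s τ hs
    cases s with
    | var x => simp [Sk.inst] at hs
    | app g a =>
      simp only [Sk.inst, Sk.node.injEq] at hs
      obtain ⟨rfl, hs⟩ := hs
      have hs' := eq_of_heq hs
      choose b hb1 hb2 hb3 using fun i => ih i (a i) τ (congrFun hs' i)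
      choose la hl1 hl2 hl3 using fun i => ihl i (l i) τ' rfl
      obtain ⟨ra, hr1, hr2, hr3⟩ := ihW r τ' rfl
      obtain ⟨m, hm1, hm2⟩ := exists_common_bound la ra
      refine ⟨ATm.node g b (some (m, app g fun i => (Y i).flat, W.flat)),
        by simp only [erase]; congr 1; funext i; exact hb1 i,
        ⟨⟨fun i => (hb2 i).1, by congr 1; funext i; exact (hb3 i).symm⟩, fun m' L N h => ?_⟩, rfl⟩
      cases h with
      | root =>
        exact Plan.dec m g _ _ l r hr τ' la ra hl1 hr1 (fun i => (hl2 i).1) hr2.1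
          (fun i => (hl3 i).trans (hZ i)) hr3 hm1 hm2 (fun i => (hl2 i).2) hr2.2
      | arg _ _ _ i _ _ _ h => exact (hb2 i).2 m' L N h
  | exp f X Y x r τ' W h hr hx hW ih ihW =>
    intro s τ hs
    cases s with
    | var x => simp [Sk.inst] at hs
    | app g a =>
      simp only [Sk.inst, Sk.node.injEq] at hs
      obtain ⟨rfl, hs⟩ := hs
      have hs' := eq_of_heq hs
      choose b hb1 hb2 hb3 using fun i => ih i (a i) τ (congrFun hs' i)
      obtain ⟨ra, hr1, hr2, hr3⟩ := ihW r τ' rfl
      obtain ⟨m, hm⟩ := exists_bound ra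
      refine ⟨ATm.node g b (some (m, app g fun i => (Y i).flat, W.flat)),
        by simp only [erase]; congr 1; funext i; exact hb1 i,
        ⟨⟨fun i => (hb2 i).1, by congr 1; funext i; exact (hb3 i).symm⟩, fun m' L N h => ?_⟩, rfl⟩
      cases h with
      | root =>
        exact Plan.var m _ _ ⟨_, _, rfl⟩ x r hr τ' hx ra hr1 hr2.1 hr3 hm hr2.2
      | arg _ _ _ i _ _ _ h => exact (hb2 i).2 m' L N h

variable (E)

/-- Part 1. -/
theorem exists_plans (θ : ℕ → Term F ar) : ∃ g : ℕ → Term F ar, (∀ x, EqE E (g x) (θ x)) ∧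
    ∀ s t : Term F ar, EqE E (s.subst θ) (t.subst θ) → ∃ a b : ATm F ar,
      a.erase = s ∧ b.erase = t ∧ Good E g a ∧ Good E g b ∧ a.val g = b.val g := by
  refine ⟨fun x => value E (θ x), fun x => value_eqE _, fun s t h => ?_⟩
  have hg : ∀ x, irr E ((fun x => value E (θ x)) x) := fun x => value_irr _
  obtain ⟨Z, hZ, hZf, -⟩ := ev_value s _ hg
  obtain ⟨Z', hZ', hZf', -⟩ := ev_value t _ hg
  obtain ⟨a, ha1, ha2, ha3⟩ := hZ.annotate s _ rfl
  obtain ⟨b, hb1, hb2, hb3⟩ := hZ'.annotate t _ rfl
  refine ⟨a, b, ha1, hb1, ha2, hb2, ?_⟩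
  rw [ha3, hb3, hZf, hZf', ← value_subst s, ← value_subst t, value_congr h]

end Pool.Agent.Work.MP_8c9686_lc_T
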