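import Pool.Agent.Work.MP_8c9686_lc_T.AnnLemmas

/-!
# Variable Elimination on annotated states
-/

namespace Pool.Agent.Work.MP_8c9686_lc_T

open Pool.Agent.Work.MP_8c9686_lc Pool.Agent.Work.MP_8c9686_lc.Term Relation

variable {F : Type*} {ar : F → ℕ} {E : Set (Term F ar × Term F ar)}

namespace ATm

theorem not_hasAnn_var {x m : ℕ} {L N : Term F ar} : ¬ (ATm.var x : ATm F ar).HasAnn m L N := by
  intro h; cases h

theorem hasAnn_node {f : F} {a : Fin (ar f) → ATm F ar} {o} {m : ℕ} {L N : Term F ar} :
    (ATm.node f a o).HasAnn m L N ↔ o = some (m, L, N) ∨ ∃ i, (a i).HasAnn m L N := by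
  constructor
  · intro h
    cases h with
    | root => exact Or.inl rfl
    | arg _ _ _ i _ _ _ h => exact Or.inr ⟨i, h⟩
  · rintro (rfl | ⟨i, h⟩)
    · exact HasAnn.root _ _ _ _ _
    · exact HasAnn.arg _ _ _ i _ _ _ h

theorem erase_asingle (y : ℕ) (b : ATm F ar) :
    (fun x => (asingle y b x).erase) = single y b.erase := by
  funext x
  simp only [asingle, single]
  split_ifs <;> rfl

theorem erase_asub_single (y : ℕ) (b a : ATm F ar) :
    (asub (asingle y b) a).erase = a.erase.subst (single y b.erase) := by
  rw [erase_asub, erase_asingle]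

end ATm

open ATm

theorem good_var (g : ℕ → Term F ar) (x : ℕ) : Good E g (ATm.var x) :=
  ⟨trivial, fun _ _ _ h => absurd h not_hasAnn_var⟩

theorem good_node_none {g : ℕ → Term F ar} {f : F} {a : Fin (ar f) → ATm F ar} :
    Good E g (ATm.node f a none) ↔ ∀ i, Good E g (a i) := by
  constructor
  · intro h i
    exact ⟨h.1 i, fun m L N hm => h.2 m L N (hasAnn_node.2 (Or.inr ⟨i, hm⟩))⟩
  · intro h
    refine ⟨fun i => (h i).1, fun m L N hm => ?_⟩
    rcases hasAnn_node.1 hm with hm | ⟨i, hm⟩
    · cases hm
    · exact (h i).2 m L N hm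

/-- a single binding keeps values -/
theorem val_asub_single {g : ℕ → Term F ar} {y : ℕ} {b : ATm F ar} (hv : g y = b.val g)
    (a : ATm F ar) : (asub (asingle y b) a).val g = a.val g := by
  rw [val_asub]
  congr 1
  funext x
  simp only [asingle]
  split_ifs with h
  · rw [h]; exact hv.symm
  · rfl

/-- a single binding keeps goodness -/
theorem good_asub_single {g : ℕ → Term F ar} {y : ℕ} {b a : ATm F ar} (hv : g y = b.val g)
    (hb : Good E g b) (ha : Good E g a) : Good E g (asub (asingle y b) a) := by
  have h1 : (fun x => (asingle y b x).val g) = g := by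
    funext x
    simp only [asingle]
    split_ifs with h
    · rw [h]; exact hv.symm
    · rfl
  have h2 : ∀ x, Good E g (asingle y b x) := by
    intro x
    simp only [asingle]
    split_ifs with h
    · exact hb
    · exact good_var g x
  refine ⟨coh_asub (by rw [h1]; exact ha.1) fun x => (h2 x).1, fun m L N hm => ?_⟩
  rcases hasAnn_asub hm with hm | ⟨x, _, hm⟩
  · exact ha.2 m L N hm
  · exact (h2 x).2 m L N hm

/-- without annotations, the value is the instance -/
theorem val_of_noAnn {g : ℕ → Term F ar} {a : ATm F ar} (h : ∀ m L N, ¬ a.HasAnn m L N) :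
    a.val g = a.erase.subst g := by
  induction a with
  | var x => rfl
  | node f a o ih =>
    rcases o with _ | ⟨m, L, N⟩
    · simp only [ATm.val, ATm.erase, subst_app]
      congr 1
      funext i
      exact ih i fun m L N hm => h m L N (hasAnn_node.2 (Or.inr ⟨i, hm⟩))
    · exact absurd (hasAnn_node.2 (Or.inl rfl)) (h m L N)

/-- the annotated system after a Variable Elimination -/
def aelim (y : ℕ) (b : ATm F ar) (U : ASys F ar) : ASys F ar :=
  U.map (Sym2.map (asub (asingle y b)))

theorem esys_aelim (y : ℕ) (b : ATm F ar) (U : ASys F ar) :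
    esys (aelim y b U) = sysSubst (single y b.erase) (esys U) := by
  simp only [esys, aelim, sysSubst, Multiset.map_map]
  apply Multiset.map_congr rfl
  intro e _
  induction e with
  | _ u v => simp [erase_asub_single]

theorem mem_aelim {y : ℕ} {b : ATm F ar} {U : ASys F ar} {c d : ATm F ar}
    (h : s(c, d) ∈ aelim y b U) : ∃ c' d', s(c', d') ∈ U ∧ c = asub (asingle y b) c' ∧
      d = asub (asingle y b) d' := by
  simp only [aelim, Multiset.mem_map] at h
  obtain ⟨e, he, huv⟩ := h
  induction e with
  | _ u' v' =>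
    rw [Sym2.map_mk, Sym2.eq_iff] at huv
    rcases huv with ⟨rfl, rfl⟩ | ⟨rfl, rfl⟩
    · exact ⟨u', v', he, rfl, rfl⟩
    · exact ⟨v', u', by rw [Sym2.eq_swap]; exact he, rfl, rfl⟩

/-- a Variable Elimination removes `y` and adds no variables -/
theorem aelim_vars {y : ℕ} {b : ATm F ar} (hy : y ∉ b.erase.vars) (U : ASys F ar) :
    sysVars (esys (aelim y b U)) ⊆ (sysVars (esys (s(ATm.var y, b) ::ₘ U))).erase y := by
  intro x hx
  rw [mem_vars_esys] at hx
  obtain ⟨c, d, hcd, hx⟩ := hx
  obtain ⟨c', d', hcd', rfl, rfl⟩ := mem_aelim hcd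
  rw [erase_asub_single, mem_vars_subst] at hx
  obtain ⟨z, hz, hx⟩ := hx
  rw [Finset.mem_erase, mem_vars_esys]
  simp only [single] at hx
  split_ifs at hx with h
  · subst h
    refine ⟨by rintro rfl; exact hy hx, b, ATm.var z, ?_, hx⟩
    rw [Sym2.eq_swap]
    exact Multiset.mem_cons_self _ _
  · rw [mem_vars_var] at hx
    subst hx
    exact ⟨h, c', d', Multiset.mem_cons_of_mem hcd', hz⟩

/-- the solved equations after a Variable Elimination -/
def lelim (y : ℕ) (t : Term F ar) (Ls : List (ℕ × Term F ar)) : List (ℕ × Term F ar) :=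
  (y, t) :: Ls.map fun p => (p.1, p.2.subst (single y t))

theorem sysSubst_single_of_notMem {y : ℕ} {t : Term F ar} {S : Sys F ar} (h : y ∉ sysVars S) :
    sysSubst (single y t) S = S := by
  conv_rhs => rw [← Multiset.map_id S]
  unfold sysSubst
  apply Multiset.map_congr rfl
  intro e he
  have hxe : y ∉ eqVars e := fun h' => h (mem_sysVars.2 ⟨e, he, h'⟩)
  induction e with
  | _ u v =>
    rw [mem_eqVars] at hxe
    push Not at hxe
    simp [subst_single_eq hxe.1, subst_single_eq hxe.2]

/-- the variables of a system after the substitution of `t` for `y` -/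
theorem mem_sysVars_single {x y : ℕ} {t : Term F ar} {S : Sys F ar}
    (h : x ∈ sysVars (sysSubst (single y t) S)) : x ∈ t.vars ∨ x ∈ sysVars S := by
  by_contra hcon
  push Not at hcon
  by_cases hxy : x = y
  · subst hxy
    have := sysOcc_single_self hcon.1 S
    rw [sysOcc_eq_zero] at this
    exact this h
  · have := sysOcc_single hxy hcon.1 S
    rw [sysOcc_eq_zero.2 hcon.2, sysOcc_eq_zero] at this
    exact this h

/-- Variable Elimination on annotated states -/
theorem ve_move {V : Finset ℕ} {g : ℕ → Term F ar} {Ls : List (ℕ × Term F ar)} {U : ASys F ar}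
    {y : ℕ} {b : ATm F ar} (hy : y ∉ b.erase.vars) (hinv : Inv E V g Ls (s(ATm.var y, b) ::ₘ U)) :
    Inv E V g (lelim y b.erase Ls) (aelim y b U) ∧
    (Done E V g (lelim y b.erase Ls) (aelim y b U) → Done E V g Ls (s(ATm.var y, b) ::ₘ U)) := by
  obtain ⟨-, hgb, hyb⟩ := hinv.valid (ATm.var y) b (Multiset.mem_cons_self _ _)
  have hyb : g y = b.val g := hyb
  have hyV : y ∈ V := hinv.varsU (by
    rw [mem_vars_esys]; exact ⟨_, _, Multiset.mem_cons_self _ _, by simp [ATm.erase]⟩)
  have hbV : ∀ x ∈ b.erase.vars, x ∈ V := fun x hx => hinv.varsU (by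
    rw [mem_vars_esys]
    exact ⟨b, ATm.var y, by rw [Sym2.eq_swap]; exact Multiset.mem_cons_self _ _, hx⟩)
  -- variables bound in `Ls` do not occur in the equation
  have hL : ∀ p ∈ Ls, p.1 ≠ y ∧ p.1 ∉ b.erase.vars := by
    intro p hp
    have h1 := hinv.free p hp
    rw [esys_cons, sysVars_cons] at h1
    simp only [ATm.erase, Finset.mem_union, mem_vars_var] at h1
    push Not at h1
    exact ⟨h1.1.1, h1.1.2⟩
  have hb : sysSubst (single y b.erase) (bsys Ls) =
      bsys (Ls.map fun p => (p.1, p.2.subst (single y b.erase))) :=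
    bsys_subst_single fun p hp => (hL p hp).1
  have e1 : bsys Ls + esys (s(ATm.var y, b) ::ₘ U) =
      s(Term.var y, b.erase) ::ₘ (bsys Ls + esys U) := by
    rw [esys_cons, Multiset.add_cons]; rfl
  have e2 : bsys (lelim y b.erase Ls) + esys (aelim y b U) =
      s(Term.var y, b.erase) ::ₘ sysSubst (single y b.erase) (bsys Ls + esys U) := by
    rw [lelim, bsys_cons, ← hb, esys_aelim, sysSubst_add, Multiset.cons_add]
  constructor
  · refine ⟨?_, ?_, ?_, ?_, ?_, ?_⟩
    · intro x hx
      rw [lelim, bsys_cons, sysVars_cons, ← hb] at hx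
      simp only [Finset.mem_union, mem_vars_var] at hx
      rcases hx with (rfl | hx) | hx
      · exact hyV
      · exact hbV x hx
      · rcases mem_sysVars_single hx with h | h
        · exact hbV x h
        · exact hinv.varsL h
    · intro x hx
      exact hinv.varsU (Finset.mem_of_mem_erase (aelim_vars hy U hx))
    · intro p hp
      rw [lelim, List.mem_cons] at hp
      rw [lelim, bsys_cons, sysOcc_cons, ← hb]
      rcases hp with rfl | hp
      · rw [sysOcc_single_self hy]
        have : b.erase.occ y = 0 := occ_eq_zero.2 hy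
        simp [eqOcc, this, occ]
      · rw [List.mem_map] at hp
        obtain ⟨p', hp', rfl⟩ := hp
        obtain ⟨h2, h3⟩ := hL p' hp'
        have h4 : eqOcc p'.1 s(Term.var y, b.erase) = 0 := by
          rw [eqOcc_eq_zero, mem_eqVars, mem_vars_var]
          tauto
        simp only
        rw [h4, sysOcc_single h2 h3, Nat.zero_add]
        exact hinv.once p' hp'
    · intro p hp hpU
      have h5 := aelim_vars hy U hpU
      rw [Finset.mem_erase] at h5
      rw [lelim, List.mem_cons] at hp
      rcases hp with rfl | hp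
      · exact h5.1 rfl
      · rw [List.mem_map] at hp
        obtain ⟨p', hp', rfl⟩ := hp
        exact hinv.free p' hp' h5.2
    · intro p hp
      rw [lelim, List.mem_cons] at hp
      rcases hp with rfl | hp
      · show EqE E (g y) (b.erase.subst g)
        rw [hyb]
        exact hgb.eqE.symm
      · rw [List.mem_map] at hp
        obtain ⟨p', hp', rfl⟩ := hp
        refine (hinv.bind p' hp').trans ?_
        show EqE E (p'.2.subst g) ((p'.2.subst (single y b.erase)).subst g)
        rw [subst_subst]
        refine Cong.subst_congr fun x _ => ?_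
        simp only [single]
        split_ifs with h
        · rw [h, hyb]
          exact hgb.eqE.symm
        · exact Cong.refl _
    · intro c d hcd
      obtain ⟨c', d', hcd', rfl, rfl⟩ := mem_aelim hcd
      obtain ⟨h1, h2, h3⟩ := hinv.valid c' d' (Multiset.mem_cons_of_mem hcd')
      refine ⟨good_asub_single hyb hgb h1, good_asub_single hyb hgb h2, ?_⟩
      rw [val_asub_single hyb, val_asub_single hyb, h3]
  · refine Done.of_step ?_ (Finset.Subset.refl V) fun _ _ => rfl
    rw [e1, e2]
    by_cases hocc : y ∈ sysVars (bsys Ls + esys U)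
    · exact ReflTransGen.single (StepT.ve V y b.erase _ hy hocc)
    · rw [sysSubst_single_of_notMem hocc]

end Pool.Agent.Work.MP_8c9686_lc_T
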